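import Pool.Agent.R922.DOM.Defs

/-! Piece DOM-C0 (helper451): covering of the pairs of `6 m` points by triples -/

namespace R922.DOM

open Finset

namespace C0Aux

/-- the Skolem map `i + l ↦ i ∘ l` -/
def ff (m s : ℕ) : ℕ := (s % (2 * m)) / 2 + ((s % (2 * m)) % 2) * m

lemma ff_lt {m : ℕ} (hm : 1 ≤ m) (s : ℕ) : ff m s < 2 * m := by
  have h1 : s % (2 * m) < 2 * m := Nat.mod_lt _ (by omega)
  unfold ff
  rcases Nat.mod_two_eq_zero_or_one (s % (2 * m)) with h | h
  · rw [h]; omega
  · rw [h]; omega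

/-- the Skolem map on `Fin (2 m)` -/
def sg {m : ℕ} (hm : 1 ≤ m) (s : ℕ) : Fin (2 * m) := ⟨ff m s, ff_lt hm s⟩

lemma solve {m : ℕ} (hm : 1 ≤ m) (i j : Fin (2 * m)) :
    ∃ l : Fin (2 * m), sg hm (i.val + l.val) = j := by
  obtain ⟨i, hi⟩ := i
  obtain ⟨j, hj⟩ := j
  obtain ⟨v, hv, hvj⟩ : ∃ v : ℕ, v < 2 * m ∧ v / 2 + (v % 2) * m = j := by
    by_cases h : j < m
    · refine ⟨2 * j, by omega, ?_⟩
      have h1 : (2 * j) % 2 = 0 := by omega
      rw [h1]; omega
    · refine ⟨2 * (j - m) + 1, by omega, ?_⟩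
      have h1 : (2 * (j - m) + 1) % 2 = 1 := by omega
      rw [h1]; omega
  by_cases h : i ≤ v
  · refine ⟨⟨v - i, by omega⟩, Fin.ext ?_⟩
    show ff m (i + (v - i)) = j
    have h1 : i + (v - i) = v := by omega
    unfold ff
    rw [h1, Nat.mod_eq_of_lt hv, hvj]
  · refine ⟨⟨v + 2 * m - i, by omega⟩, Fin.ext ?_⟩
    show ff m (i + (v + 2 * m - i)) = j
    have h1 : i + (v + 2 * m - i) = v + 2 * m := by omega
    unfold ff
    rw [h1, Nat.add_mod_right, Nat.mod_eq_of_lt hv, hvj]

lemma diag {m : ℕ} (hm : 1 ≤ m) (i j : Fin (2 * m)) (h : sg hm (i.val + i.val) = j) :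
    (i = j ∧ j.val < m) ∨ i.val = m + j.val := by
  obtain ⟨i, hi⟩ := i
  obtain ⟨j, hj⟩ := j
  have h1 : ff m (i + i) = j := congrArg Fin.val h
  unfold ff at h1
  by_cases hc : i < m
  · left
    have h2 : (i + i) % (2 * m) = 2 * i := by rw [Nat.mod_eq_of_lt (by omega)]; omega
    rw [h2] at h1
    have h3 : (2 * i) % 2 = 0 := by omega
    rw [h3] at h1
    have h4 : i = j := by omega
    exact ⟨Fin.ext h4, by show j < m; omega⟩
  · right
    have h2 : (i + i) % (2 * m) = 2 * (i - m) := by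
      have h5 : i + i = 2 * (i - m) + 2 * m := by omega
      rw [h5, Nat.add_mod_right, Nat.mod_eq_of_lt (by omega)]
    rw [h2] at h1
    have h3 : (2 * (i - m)) % 2 = 0 := by omega
    rw [h3] at h1
    show i = m + j
    omega

/-- blocks (a) -/
def blA {m : ℕ} (hm : 1 ≤ m) (q : Finset (Fin (2 * m)) × ZMod 3) :
    Finset (Fin (2 * m) × ZMod 3) :=
  insert (sg hm (∑ x ∈ q.1, x.val), q.2 + 1) (q.1.image fun x => (x, q.2))

/-- blocks (b) -/
def blB {m : ℕ} (q : Fin m × ZMod 3) : Finset (Fin (2 * m) × ZMod 3) :=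
  {(⟨m + q.1.val, by have := q.1.isLt; omega⟩, q.2), (⟨q.1.val, by have := q.1.isLt; omega⟩, q.2 + 1),
    (⟨q.1.val, by have := q.1.isLt; omega⟩, q.2 + 2)}

/-- all blocks -/
def CC {m : ℕ} (hm : 1 ≤ m) : Finset (Finset (Fin (2 * m) × ZMod 3)) :=
  (((univ : Finset (Fin (2 * m))).powersetCard 2) ×ˢ (univ : Finset (ZMod 3))).image (blA hm) ∪
    (univ : Finset (Fin m × ZMod 3)).image blB

lemma memA {m : ℕ} (hm : 1 ≤ m) (i l : Fin (2 * m)) (h : i ≠ l) (k : ZMod 3) :
    blA hm ({i, l}, k) ∈ CC hm := by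
  unfold CC
  apply mem_union_left
  apply mem_image_of_mem
  rw [mem_product]
  exact ⟨mem_powersetCard.mpr ⟨subset_univ _, card_pair h⟩, mem_univ _⟩

lemma memB {m : ℕ} (hm : 1 ≤ m) (q : Fin m × ZMod 3) : blB q ∈ CC hm := by
  unfold CC
  apply mem_union_right
  exact mem_image_of_mem _ (mem_univ _)

lemma card_CC {m : ℕ} (hm : 1 ≤ m) : (CC hm).card ≤ 6 * m ^ 2 := by
  unfold CC
  refine le_trans (card_union_le _ _) ?_
  refine le_trans (add_le_add card_image_le card_image_le) ?_
  rw [card_product, card_powersetCard, card_univ, card_univ, card_univ, Fintype.card_prod,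
    Fintype.card_fin, Fintype.card_fin, ZMod.card, Nat.choose_two_right]
  have h1 : 2 * m * (2 * m - 1) / 2 = m * (2 * m - 1) := by
    rw [mul_assoc, Nat.mul_div_cancel_left _ (by norm_num)]
  rw [h1]
  obtain ⟨n, rfl⟩ : ∃ n, m = n + 1 := ⟨m - 1, by omega⟩
  have h2 : 2 * (n + 1) - 1 = 2 * n + 1 := by omega
  rw [h2]
  apply le_of_eq
  ring

lemma three (a b : ZMod 3) (h : a ≠ b) : b = a + 1 ∨ a = b + 1 := by
  revert a b
  decide

lemma cover1 {m : ℕ} (hm : 1 ≤ m) (i j : Fin (2 * m)) (k : ZMod 3) :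
    ∃ c ∈ CC hm, (i, k) ∈ c ∧ (j, k + 1) ∈ c := by
  obtain ⟨l, hl⟩ := solve hm i j
  by_cases hil : i = l
  · subst hil
    rcases diag hm i j hl with ⟨h1, h2⟩ | h1
    · subst h1
      refine ⟨blB (⟨i.val, h2⟩, k + 2), memB hm _, ?_, ?_⟩
      · unfold blB
        simp only [mem_insert, mem_singleton, Prod.mk.injEq]
        right; left
        refine ⟨trivial, ?_⟩
        revert k
        decide
      · unfold blB
        simp only [mem_insert, mem_singleton, Prod.mk.injEq]
        right; right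
        refine ⟨trivial, ?_⟩
        revert k
        decide
    · have h2 : j.val < m := by have := i.isLt; omega
      refine ⟨blB (⟨j.val, h2⟩, k), memB hm _, ?_, ?_⟩
      · unfold blB
        simp only [mem_insert, mem_singleton, Prod.mk.injEq]
        left
        exact ⟨Fin.ext h1, trivial⟩
      · unfold blB
        simp only [mem_insert, mem_singleton, Prod.mk.injEq]
        right; left
        trivial
  · refine ⟨blA hm ({i, l}, k), memA hm i l hil k, ?_, ?_⟩
    · unfold blA
      apply mem_insert_of_mem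
      exact mem_image_of_mem (fun x => (x, k)) (mem_insert_self i {l})
    · unfold blA
      have h1 : ∑ x ∈ ({i, l} : Finset (Fin (2 * m))), x.val = i.val + l.val := sum_pair hil
      simp only
      rw [h1, hl]
      exact mem_insert_self _ _

end C0Aux

open C0Aux

theorem c0_proof : R922.DOM.C0 := by
  intro m hm
  refine ⟨Fin (2 * m) × ZMod 3, inferInstance, inferInstance, CC hm, ?_, ?_, ?_, card_CC hm⟩
  · rw [Fintype.card_prod, Fintype.card_fin, ZMod.card]
    ring
  · intro c hc
    unfold CC at hc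
    rcases mem_union.mp hc with h | h
    · obtain ⟨q, hq, rfl⟩ := mem_image.mp h
      rw [mem_product, mem_powersetCard] at hq
      unfold blA
      refine le_trans (card_insert_le _ _) ?_
      have h1 : (q.1.image fun x => (x, q.2)).card ≤ q.1.card := card_image_le
      have h2 := hq.1.2
      omega
    · obtain ⟨q, -, rfl⟩ := mem_image.mp h
      exact card_le_three
  · rintro ⟨i, k⟩ ⟨j, k'⟩ hxy
    by_cases hk : k = k'
    · subst hk
      have hij : i ≠ j := fun h => hxy (by rw [h])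
      refine ⟨blA hm ({i, j}, k), memA hm i j hij k, ?_, ?_⟩
      · unfold blA
        apply mem_insert_of_mem
        exact mem_image_of_mem (fun x => (x, k)) (mem_insert_self i {j})
      · unfold blA
        apply mem_insert_of_mem
        exact mem_image_of_mem (fun x => (x, k)) (mem_insert_of_mem (mem_singleton_self j))
    · rcases three k k' hk with h | h
      · subst h
        exact cover1 hm i j k
      · subst h
        obtain ⟨c, hc, h1, h2⟩ := cover1 hm j i k'
        exact ⟨c, hc, h2, h1⟩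

end R922.DOM
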