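import Pool.Agent.R922.DOM.C3

/-! Piece C1 (Skolem) of project DOM. -/

namespace R922.DOM

open Finset

/-- the bijection `sig` -/
def sig {m : ℕ} (hm : 1 ≤ m) (v : ℕ) : Fin (2 * m) :=
  ⟨(v % (2 * m)) / 2 + (v % (2 * m)) % 2 * m, by
    have h1 : v % (2 * m) < 2 * m := Nat.mod_lt _ (by omega)
    have h2 : v % (2 * m) / 2 < m := by omega
    rcases Nat.mod_two_eq_zero_or_one (v % (2 * m)) with h | h
    · rw [h]; omega
    · rw [h]; omega⟩

open C3Aux in
/-- piece C1 -/
theorem c1_proof : C1 := by
  intro m hm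
  obtain ⟨A, hA1, hA2, hA3, hA4⟩ := blkA (Q := Fin (2 * m)) (P := Option (Fin (2 * m) × ZMod 3))
    some (fun p _ => sig hm (∑ x ∈ p, (x : ℕ)))
  let lo : Fin m → Fin (2 * m) := fun i => ⟨i, by omega⟩
  let hi : Fin m → Fin (2 * m) := fun i => ⟨m + i, by omega⟩
  let Bf : Fin m → Finset (Option (Fin (2 * m) × ZMod 3)) := fun i =>
    {some (lo i, 0), some (lo i, 1), some (lo i, 2)}
  let Cf : Fin m × ZMod 3 → Finset (Option (Fin (2 * m) × ZMod 3)) := fun x =>
    {none, some (hi x.1, x.2), some (lo x.1, x.2 + 1)}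
  set C := A ∪ (univ.image Bf ∪ univ.image Cf) with hC
  have hB : ∀ i, Bf i ∈ C := fun i =>
    mem_union_right _ (mem_union_left _ (mem_image_of_mem _ (mem_univ _)))
  have hCf : ∀ x, Cf x ∈ C := fun x =>
    mem_union_right _ (mem_union_right _ (mem_image_of_mem _ (mem_univ _)))
  have hcov1 : ∀ i j k, ∃ c ∈ C, some (i, k) ∈ c ∧ some (j, k + 1) ∈ c := by
    intro i j k
    -- solve i ∘ l = j
    set v : ℕ := if (j : ℕ) < m then 2 * j else 2 * (j - m) + 1 with hv
    have hvlt : v < 2 * m := by
      have := j.2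
      rw [hv]
      split_ifs <;> omega
    have hsigv : (v / 2 + v % 2 * m) = (j : ℕ) := by
      rw [hv]
      split_ifs with h
      · have e1 : 2 * (j : ℕ) / 2 = j := by omega
        have e2 : 2 * (j : ℕ) % 2 = 0 := by omega
        rw [e1, e2]; omega
      · have e1 : (2 * ((j : ℕ) - m) + 1) / 2 = j - m := by omega
        have e2 : (2 * ((j : ℕ) - m) + 1) % 2 = 1 := by omega
        rw [e1, e2]; omega
    let l : Fin (2 * m) := ⟨(v + 2 * m - i) % (2 * m), Nat.mod_lt _ (by omega)⟩
    have hil : ((i : ℕ) + l) % (2 * m) = v := by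
      show ((i : ℕ) + (v + 2 * m - i) % (2 * m)) % (2 * m) = v
      rw [Nat.add_mod_mod]
      have : (i : ℕ) + (v + 2 * m - i) = v + 2 * m := by omega
      rw [this, Nat.add_mod_right, Nat.mod_eq_of_lt hvlt]
    by_cases h : i = l
    · -- j = i ∘ i
      have h2 : ((i : ℕ) + i) % (2 * m) = v := by
        rw [← hil, ← h]
      by_cases him : (i : ℕ) < m
      · have h3 : v = 2 * i := by
          rw [← h2, Nat.mod_eq_of_lt (by omega)]; omega
        have h4 : (j : ℕ) = i := by
          rw [← hsigv, h3]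
          have e1 : 2 * (i : ℕ) / 2 = i := by omega
          have e2 : 2 * (i : ℕ) % 2 = 0 := by omega
          rw [e1, e2]; omega
        have h5 : j = i := Fin.ext h4
        subst h5
        refine ⟨Bf ⟨j, him⟩, hB _, ?_, ?_⟩
        · have e : lo ⟨j, him⟩ = j := rfl
          rcases z3 k with h | h | h <;> simp [Bf, h, e]
        · have e : lo ⟨j, him⟩ = j := rfl
          rcases z3 (k + 1) with h | h | h <;> rw [h] <;> simp [Bf, e]
      · have h3 : v = 2 * (i - m) := by
          rw [← h2]
          have : (i : ℕ) + i = 2 * (i - m) + 2 * m := by omega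
          rw [this, Nat.add_mod_right, Nat.mod_eq_of_lt (by omega)]
        have h4 : (j : ℕ) = i - m := by
          rw [← hsigv, h3]
          have e1 : 2 * ((i : ℕ) - m) / 2 = i - m := by omega
          have e2 : 2 * ((i : ℕ) - m) % 2 = 0 := by omega
          rw [e1, e2]; omega
        refine ⟨Cf (⟨i - m, by omega⟩, k), hCf _, ?_, ?_⟩
        · have e : hi ⟨i - m, by omega⟩ = i := Fin.ext (by
            show m + ((i : ℕ) - m) = i
            omega)
          simp [Cf, e]
        · have e : lo ⟨i - m, by omega⟩ = j := Fin.ext h4.symm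
          simp [Cf, e]
    · obtain ⟨c, hc, h1, h2⟩ := hA4 i l k h
      refine ⟨c, mem_union_left _ hc, h1, ?_⟩
      rw [sum_pair h] at h2
      have h3 : sig hm ((i : ℕ) + l) = j := by
        refine Fin.ext ?_
        show (((i : ℕ) + l) % (2 * m)) / 2 + (((i : ℕ) + l) % (2 * m)) % 2 * m = j
        rw [hil, hsigv]
      rw [h3] at h2
      exact h2
  have hnone : ∀ x : Fin (2 * m) × ZMod 3, ∃ c ∈ C, none ∈ c ∧ some x ∈ c := by
    rintro ⟨i, k⟩
    by_cases him : (i : ℕ) < m
    · refine ⟨Cf (⟨i, him⟩, k - 1), hCf _, by simp [Cf], ?_⟩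
      have e : lo ⟨i, him⟩ = i := rfl
      simp [Cf, e]
    · refine ⟨Cf (⟨i - m, by omega⟩, k), hCf _, by simp [Cf], ?_⟩
      have e : hi ⟨i - m, by omega⟩ = i := Fin.ext (by
        show m + ((i : ℕ) - m) = i
        omega)
      simp [Cf, e]
  refine ⟨Option (Fin (2 * m) × ZMod 3), inferInstance, inferInstance, C, ?_, ?_, ?_, ?_⟩
  · rw [Fintype.card_option, Fintype.card_prod, Fintype.card_fin, ZMod.card]
    ring
  · intro c hc
    rcases mem_union.1 hc with h | h
    · exact hA2 c h
    · rcases mem_union.1 h with h | h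
      · obtain ⟨x, _, rfl⟩ := mem_image.1 h
        exact card_le_three
      · obtain ⟨x, _, rfl⟩ := mem_image.1 h
        exact card_le_three
  · intro x y hxy
    rcases x with _ | ⟨i, k⟩
    · rcases y with _ | y
      · exact absurd rfl hxy
      · exact hnone y
    · rcases y with _ | ⟨j, k'⟩
      · obtain ⟨c, hc, h1, h2⟩ := hnone (i, k)
        exact ⟨c, hc, h2, h1⟩
      · rcases z3' k k' with h | h | h
        · subst h
          have hij : i ≠ j := fun h => hxy (by rw [h])
          obtain ⟨c, hc, h1, h2⟩ := hA3 i j k' hij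
          exact ⟨c, mem_union_left _ hc, h1, h2⟩
        · subst h
          exact hcov1 i j k
        · subst h
          obtain ⟨c, hc, h1, h2⟩ := hcov1 j i k'
          exact ⟨c, hc, h2, h1⟩
  · refine (card_union_le _ _).trans ?_
    have h0 := card_union_le (univ.image Bf) (univ.image Cf)
    have h1 : (univ.image Bf).card ≤ m := by
      refine card_image_le.trans ?_
      rw [card_univ, Fintype.card_fin]
    have h3 : (univ.image Cf).card ≤ m * 3 := by
      refine card_image_le.trans ?_
      rw [card_univ, Fintype.card_prod, Fintype.card_fin, ZMod.card]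
    rw [Fintype.card_fin] at hA1
    have h2 : (2 * m).choose 2 = m * (2 * m - 1) := by
      rw [Nat.choose_two_right, mul_assoc, Nat.mul_div_cancel_left _ (by norm_num)]
    rw [h2] at hA1
    obtain ⟨n, rfl⟩ : ∃ n, m = n + 1 := ⟨m - 1, by omega⟩
    have h5 : 2 * (n + 1) - 1 = 2 * n + 1 := by omega
    rw [h5] at hA1
    nlinarith

end R922.DOM
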