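import Pool.Agent.R922.DOM.Defs

/-! Piece C3 (Bose) of project DOM. -/

namespace R922.DOM

open Finset

namespace C3Aux

/-- The blocks of type (a). -/
lemma blkA {Q P : Type} [Fintype Q] [DecidableEq Q] [DecidableEq P] (f : Q × ZMod 3 → P)
    (g : Finset Q → ZMod 3 → Q) :
    ∃ A : Finset (Finset P), A.card ≤ 3 * (Fintype.card Q).choose 2 ∧ (∀ c ∈ A, c.card ≤ 3) ∧
      (∀ i j k, i ≠ j → ∃ c ∈ A, f (i, k) ∈ c ∧ f (j, k) ∈ c) ∧
      (∀ i l k, i ≠ l → ∃ c ∈ A, f (i, k) ∈ c ∧ f (g {i, l} k, k + 1) ∈ c) := by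
  let B : Finset Q × ZMod 3 → Finset P := fun x =>
    insert (f (g x.1 x.2, x.2 + 1)) (x.1.image (fun q => f (q, x.2)))
  refine ⟨((univ.powersetCard 2) ×ˢ univ).image B, ?_, ?_, ?_, ?_⟩
  · refine card_image_le.trans ?_
    rw [card_product, card_powersetCard, card_univ, card_univ]
    have : Fintype.card (ZMod 3) = 3 := by simp
    rw [this]
    omega
  · intro c hc
    obtain ⟨⟨p, k⟩, hp, rfl⟩ := mem_image.1 hc
    have h1 : p.card = 2 := (mem_powersetCard.1 (mem_product.1 hp).1).2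
    refine (card_insert_le _ _).trans ?_
    have h2 : (p.image (fun q => f (q, k))).card ≤ 2 := card_image_le.trans h1.le
    have h3 : ((p, k).1.image (fun q => f (q, (p, k).2))).card ≤ 2 := h2
    omega
  · intro i j k hij
    refine ⟨B ({i, j}, k), mem_image_of_mem _ ?_, ?_, ?_⟩
    · rw [mem_product, mem_powersetCard]
      exact ⟨⟨subset_univ _, card_pair hij⟩, mem_univ _⟩
    · exact mem_insert_of_mem (mem_image.2 ⟨i, by simp, rfl⟩)
    · exact mem_insert_of_mem (mem_image.2 ⟨j, by simp, rfl⟩)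
  · intro i l k hil
    refine ⟨B ({i, l}, k), mem_image_of_mem _ ?_, ?_, ?_⟩
    · rw [mem_product, mem_powersetCard]
      exact ⟨⟨subset_univ _, card_pair hil⟩, mem_univ _⟩
    · exact mem_insert_of_mem (mem_image.2 ⟨i, by simp, rfl⟩)
    · exact mem_insert_self _ _

lemma z3 : ∀ k : ZMod 3, k = 0 ∨ k = 1 ∨ k = 2 := by decide

lemma z3' : ∀ k k' : ZMod 3, k' = k ∨ k' = k + 1 ∨ k = k' + 1 := by decide

end C3Aux

open C3Aux in
/-- piece C3 -/
theorem c3_proof : C3 := by
  intro m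
  let half : ZMod (2 * m + 1) → ZMod (2 * m + 1) := fun x => ((m : ZMod (2 * m + 1)) + 1) * x
  have h0 : (2 : ZMod (2 * m + 1)) * m + 1 = 0 := by
    have := ZMod.natCast_self (2 * m + 1)
    push_cast at this
    exact this
  have hhalf : ∀ j, half (2 * j) = j := by
    intro j
    show ((m : ZMod (2 * m + 1)) + 1) * (2 * j) = j
    linear_combination j * h0
  obtain ⟨A, hA1, hA2, hA3, hA4⟩ := blkA (Q := ZMod (2 * m + 1)) (P := ZMod (2 * m + 1) × ZMod 3)
    id (fun p _ => half (∑ x ∈ p, x))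
  let Bf : ZMod (2 * m + 1) → Finset (ZMod (2 * m + 1) × ZMod 3) := fun x =>
    {(x, 0), (x, 1), (x, 2)}
  have hcov1 : ∀ i j k, i ≠ j → ∃ c ∈ A ∪ univ.image Bf, (i, k) ∈ c ∧ (j, k + 1) ∈ c := by
    intro i j k hij
    have hil : i ≠ 2 * j - i := by
      intro h
      apply hij
      have h2 : (2 : ZMod (2 * m + 1)) * i = 2 * j := by linear_combination h
      rw [← hhalf i, ← hhalf j, h2]
    obtain ⟨c, hc, h1, h2⟩ := hA4 i (2 * j - i) k hil
    refine ⟨c, mem_union_left _ hc, h1, ?_⟩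
    rw [sum_pair hil] at h2
    have : i + (2 * j - i) = 2 * j := by ring
    rw [this, hhalf] at h2
    exact h2
  refine ⟨ZMod (2 * m + 1) × ZMod 3, inferInstance, inferInstance, A ∪ univ.image Bf, ?_, ?_, ?_, ?_⟩
  · rw [Fintype.card_prod, ZMod.card, ZMod.card]
    ring
  · intro c hc
    rcases mem_union.1 hc with h | h
    · exact hA2 c h
    · obtain ⟨x, _, rfl⟩ := mem_image.1 h
      exact card_le_three
  · rintro ⟨i, k⟩ ⟨j, k'⟩ hne
    by_cases hij : i = j
    · subst hij
      refine ⟨Bf i, mem_union_right _ (mem_image_of_mem _ (mem_univ _)), ?_, ?_⟩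
      · rcases z3 k with h | h | h <;> simp [Bf, h]
      · rcases z3 k' with h | h | h <;> simp [Bf, h]
    · rcases z3' k k' with h | h | h
      · subst h
        obtain ⟨c, hc, h1, h2⟩ := hA3 i j k' hij
        exact ⟨c, mem_union_left _ hc, h1, h2⟩
      · subst h
        exact hcov1 i j k hij
      · subst h
        obtain ⟨c, hc, h1, h2⟩ := hcov1 j i k' (Ne.symm hij)
        exact ⟨c, hc, h2, h1⟩
  · refine (card_union_le _ _).trans ?_
    have h1 : (univ.image Bf).card ≤ 2 * m + 1 := by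
      refine card_image_le.trans ?_
      rw [card_univ, ZMod.card]
    rw [ZMod.card] at hA1
    have h2 : (2 * m + 1).choose 2 = (2 * m + 1) * m := by
      rw [Nat.choose_two_right, Nat.add_sub_cancel]
      have : (2 * m + 1) * (2 * m) = 2 * ((2 * m + 1) * m) := by ring
      rw [this, Nat.mul_div_cancel_left _ (by norm_num)]
    rw [h2] at hA1
    nlinarith

end R922.DOM
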