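import Pool.Agent.R922.DOM.Defs

/-! Piece C5: covering of the pairs of 6m+5 points by triples. -/

set_option autoImplicit false

namespace R922.DOM.PC5

open Finset

/-- the points -/
abbrev Pt (m : ℕ) : Type := Bool ⊕ (ZMod (2 * m + 1) × Fin 3)

/-- half of an element -/
def half (m : ℕ) (x : ZMod (2 * m + 1)) : ZMod (2 * m + 1) := ((m + 1 : ℕ) : ZMod (2 * m + 1)) * x

theorem two_half (m : ℕ) (x : ZMod (2 * m + 1)) : half m (2 * x) = x := by
  unfold half
  have h : ((2 * m + 1 : ℕ) : ZMod (2 * m + 1)) = 0 := ZMod.natCast_self _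
  have h2 : ((m + 1 : ℕ) : ZMod (2 * m + 1)) * 2 = 1 := by
    have : (((m + 1) * 2 : ℕ) : ZMod (2 * m + 1)) = ((2 * m + 1 : ℕ) : ZMod (2 * m + 1)) + 1 := by
      push_cast; ring
    rw [h, zero_add] at this
    rw [← this]; push_cast; ring
  rw [← mul_assoc, h2, one_mul]

theorem two_inj (m : ℕ) {x y : ZMod (2 * m + 1)} (h : 2 * x = 2 * y) : x = y := by
  rw [← two_half m x, h, two_half m y]

/-- the sign -/
def sg (k : Fin 3) (m : ℕ) (x : ZMod (2 * m + 1)) : ZMod (2 * m + 1) := if k = 2 then -x else x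

/-- blocks (a) -/
def Ba (m : ℕ) (q : Finset (ZMod (2 * m + 1)) × Fin 3) : Finset (Pt m) :=
  q.1.image (fun x => Sum.inr (x, q.2)) ∪ {Sum.inr (sg q.2 m (half m (∑ x ∈ q.1, x)), q.2 + 1)}

/-- blocks (b) -/
def Bb (m : ℕ) (q : ℕ × Fin 6) : Finset (Pt m) :=
  let a : ZMod (2 * m + 1) := ((q.1 + 1 : ℕ) : ZMod (2 * m + 1))
  ![{Sum.inl false, Sum.inr (a, 0), Sum.inr (a, 1)},
    {Sum.inl false, Sum.inr (a, 2), Sum.inr (-a, 0)},
    {Sum.inl false, Sum.inr (-a, 1), Sum.inr (-a, 2)},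
    {Sum.inl true, Sum.inr (a, 1), Sum.inr (a, 2)},
    {Sum.inl true, Sum.inr (-a, 0), Sum.inr (-a, 1)},
    {Sum.inl true, Sum.inr (-a, 2), Sum.inr (a, 0)}] q.2

/-- blocks (c) -/
def Bc (m : ℕ) (t : Fin 4) : Finset (Pt m) :=
  ![{Sum.inl false, Sum.inl true, Sum.inr (0, 0)},
    {Sum.inl false, Sum.inr (0, 1), Sum.inr (0, 2)},
    {Sum.inl true, Sum.inr (0, 1), Sum.inr (0, 2)},
    {Sum.inr (0, 0), Sum.inr (0, 1), Sum.inr (0, 2)}] t

/-- all blocks -/
def CC (m : ℕ) : Finset (Finset (Pt m)) :=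
  (((powersetCard 2 (univ : Finset (ZMod (2 * m + 1)))) ×ˢ (univ : Finset (Fin 3))).image (Ba m)) ∪
    (((range m) ×ˢ (univ : Finset (Fin 6))).image (Bb m)) ∪ ((univ : Finset (Fin 4)).image (Bc m))

theorem card_CC (m : ℕ) : (CC m).card ≤ 6 * m ^ 2 + 9 * m + 4 := by
  unfold CC
  refine (card_union_le _ _).trans ?_
  have h1 : (((powersetCard 2 (univ : Finset (ZMod (2 * m + 1)))) ×ˢ
      (univ : Finset (Fin 3))).image (Ba m)).card ≤ (m * (2 * m + 1)) * 3 := by
    refine card_image_le.trans ?_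
    rw [card_product, card_powersetCard, Finset.card_univ, ZMod.card, Finset.card_univ,
      Fintype.card_fin]
    have : (2 * m + 1).choose 2 = m * (2 * m + 1) := by
      rw [Nat.choose_two_right]
      have : (2 * m + 1) * (2 * m + 1 - 1) = m * (2 * m + 1) * 2 := by
        simp only [Nat.add_sub_cancel]; ring
      rw [this]; simp
    rw [this]
  have h2 : (((range m) ×ˢ (univ : Finset (Fin 6))).image (Bb m)).card ≤ m * 6 := by
    refine card_image_le.trans ?_
    rw [card_product, card_range, Finset.card_univ, Fintype.card_fin]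
  have h3 : ((univ : Finset (Fin 4)).image (Bc m)).card ≤ 4 := by
    refine card_image_le.trans ?_
    rw [Finset.card_univ, Fintype.card_fin]
  have h4 := card_union_le
    (((powersetCard 2 (univ : Finset (ZMod (2 * m + 1)))) ×ˢ (univ : Finset (Fin 3))).image (Ba m))
    (((range m) ×ˢ (univ : Finset (Fin 6))).image (Bb m))
  nlinarith

theorem mem_Ba {m : ℕ} {x y : ZMod (2 * m + 1)} (h : x ≠ y) (k : Fin 3) :
    Ba m ({x, y}, k) ∈ CC m := by
  unfold CC
  rw [mem_union, mem_union]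
  left; left
  refine mem_image_of_mem _ ?_
  rw [mem_product, mem_powersetCard]
  exact ⟨⟨subset_univ _, card_pair h⟩, mem_univ _⟩

theorem mem_Bb {m : ℕ} {i : ℕ} (h : i < m) (t : Fin 6) : Bb m (i, t) ∈ CC m := by
  unfold CC
  rw [mem_union, mem_union]
  left; right
  refine mem_image_of_mem _ ?_
  rw [mem_product]
  exact ⟨mem_range.2 h, mem_univ _⟩

theorem mem_Bc {m : ℕ} (t : Fin 4) : Bc m t ∈ CC m := by
  unfold CC
  rw [mem_union]
  right
  exact mem_image_of_mem _ (mem_univ _)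

theorem card_blocks (m : ℕ) : ∀ c ∈ CC m, c.card ≤ 3 := by
  intro c hc
  unfold CC at hc
  rw [mem_union, mem_union, mem_image, mem_image, mem_image] at hc
  rcases hc with (⟨q, hq, rfl⟩ | ⟨q, hq, rfl⟩) | ⟨t, -, rfl⟩
  · rw [mem_product, mem_powersetCard] at hq
    unfold Ba
    refine (card_union_le _ _).trans ?_
    have := card_image_le (s := q.1) (f := fun x => (Sum.inr (x, q.2) : Pt m))
    rw [hq.1.2] at this
    rw [card_singleton]
    omega
  · obtain ⟨i, t⟩ := q
    unfold Bb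
    fin_cases t <;> exact card_le_three
  · unfold Bc
    fin_cases t <;> exact card_le_three

theorem rep (m : ℕ) (x : ZMod (2 * m + 1)) (hx : x ≠ 0) :
    ∃ i < m, x = ((i + 1 : ℕ) : ZMod (2 * m + 1)) ∨ x = -((i + 1 : ℕ) : ZMod (2 * m + 1)) := by
  have hv : x.val < 2 * m + 1 := ZMod.val_lt x
  have hv0 : x.val ≠ 0 := fun h => hx ((ZMod.val_eq_zero x).1 h)
  have hx' : ((x.val : ℕ) : ZMod (2 * m + 1)) = x := ZMod.natCast_zmod_val x
  by_cases h : x.val ≤ m
  · refine ⟨x.val - 1, by omega, Or.inl ?_⟩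
    rw [Nat.sub_add_cancel (by omega)]
    exact hx'.symm
  · refine ⟨2 * m - x.val, by omega, Or.inr ?_⟩
    have h1 : ((2 * m - x.val + 1 : ℕ) : ZMod (2 * m + 1)) + ((x.val : ℕ) : ZMod (2 * m + 1)) = 0 := by
      rw [← Nat.cast_add]
      have : 2 * m - x.val + 1 + x.val = 2 * m + 1 := by omega
      rw [this]
      exact ZMod.natCast_self _
    rw [hx'] at h1
    exact eq_neg_of_add_eq_zero_right h1

/-- covered pairs -/
def Cv (m : ℕ) (x y : Pt m) : Prop := ∃ c ∈ CC m, x ∈ c ∧ y ∈ c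

theorem Cv.symm {m : ℕ} {x y : Pt m} (h : Cv m x y) : Cv m y x := by
  obtain ⟨c, h1, h2, h3⟩ := h
  exact ⟨c, h1, h3, h2⟩

/-- one of the two extra points and another one -/
theorem cv_inl (m : ℕ) (a : Bool) (x : ZMod (2 * m + 1)) (k : Fin 3) :
    Cv m (Sum.inl a) (Sum.inr (x, k)) := by
  by_cases hx : x = 0
  · subst hx
    cases a <;> fin_cases k
    · exact ⟨_, mem_Bc 0, by simp [Bc], by simp [Bc]⟩
    · exact ⟨_, mem_Bc 1, by simp [Bc], by simp [Bc]⟩
    · exact ⟨_, mem_Bc 1, by simp [Bc], by simp [Bc]⟩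
    · exact ⟨_, mem_Bc 0, by simp [Bc], by simp [Bc]⟩
    · exact ⟨_, mem_Bc 2, by simp [Bc], by simp [Bc]⟩
    · exact ⟨_, mem_Bc 2, by simp [Bc], by simp [Bc]⟩
  · obtain ⟨i, hi, rfl | rfl⟩ := rep m x hx
    · cases a <;> fin_cases k
      · exact ⟨_, mem_Bb hi 0, by simp [Bb], by simp [Bb]⟩
      · exact ⟨_, mem_Bb hi 0, by simp [Bb], by simp [Bb]⟩
      · exact ⟨_, mem_Bb hi 1, by simp [Bb], by simp [Bb]⟩
      · exact ⟨_, mem_Bb hi 5, by simp [Bb], by simp [Bb]⟩
      · exact ⟨_, mem_Bb hi 3, by simp [Bb], by simp [Bb]⟩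
      · exact ⟨_, mem_Bb hi 3, by simp [Bb], by simp [Bb]⟩
    · cases a <;> fin_cases k
      · exact ⟨_, mem_Bb hi 1, by simp [Bb], by simp [Bb]⟩
      · exact ⟨_, mem_Bb hi 2, by simp [Bb], by simp [Bb]⟩
      · exact ⟨_, mem_Bb hi 2, by simp [Bb], by simp [Bb]⟩
      · exact ⟨_, mem_Bb hi 4, by simp [Bb], by simp [Bb]⟩
      · exact ⟨_, mem_Bb hi 4, by simp [Bb], by simp [Bb]⟩
      · exact ⟨_, mem_Bb hi 5, by simp [Bb], by simp [Bb]⟩

/-- the general block -/
theorem cv_gen (m : ℕ) (x y : ZMod (2 * m + 1)) (k : Fin 3) (h : sg k m y ≠ x) :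
    Cv m (Sum.inr (x, k)) (Sum.inr (y, k + 1)) := by
  have hxl : x ≠ 2 * sg k m y - x := by
    intro h1
    apply h
    refine two_inj m ?_
    rw [two_mul x]
    nth_rewrite 1 [h1]
    ring
  refine ⟨_, mem_Ba hxl k, ?_, ?_⟩
  · unfold Ba
    rw [mem_union]
    left
    exact mem_image_of_mem (fun x => (Sum.inr (x, k) : Pt m)) (mem_insert_self _ _)
  · unfold Ba
    rw [mem_union]
    right
    rw [mem_singleton, sum_pair hxl]
    have h1 : x + (2 * sg k m y - x) = 2 * sg k m y := by ring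
    show (Sum.inr (y, k + 1) : Pt m) = Sum.inr (sg k m (half m (x + (2 * sg k m y - x))), k + 1)
    rw [h1, two_half]
    have h2 : sg k m (sg k m y) = y := by
      unfold sg; split_ifs <;> simp
    rw [h2]

theorem cv_succ (m : ℕ) (x y : ZMod (2 * m + 1)) (k : Fin 3) :
    Cv m (Sum.inr (x, k)) (Sum.inr (y, k + 1)) := by
  by_cases h : sg k m y ≠ x
  · exact cv_gen m x y k h
  · push Not at h
    by_cases hy : y = 0
    · subst hy
      have hx : x = 0 := by
        rw [← h]; unfold sg; split_ifs <;> simp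
      subst hx
      fin_cases k
      · exact ⟨_, mem_Bc 3, by simp [Bc], by simp [Bc]⟩
      · exact ⟨_, mem_Bc 3, by simp [Bc], by simp [Bc]⟩
      · exact ⟨_, mem_Bc 3, by simp [Bc], by simp [Bc]⟩
    · obtain ⟨i, hi, hy'⟩ := rep m y hy
      fin_cases k
      · have hx : x = y := by rw [← h]; simp [sg]
        subst hx
        rcases hy' with rfl | rfl
        · exact ⟨_, mem_Bb hi 0, by simp [Bb], by simp [Bb]⟩
        · exact ⟨_, mem_Bb hi 4, by simp [Bb], by simp [Bb]⟩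
      · have hx : x = y := by rw [← h]; simp [sg]
        subst hx
        rcases hy' with rfl | rfl
        · exact ⟨_, mem_Bb hi 3, by simp [Bb], by simp [Bb]⟩
        · exact ⟨_, mem_Bb hi 2, by simp [Bb], by simp [Bb]⟩
      · have hx : x = -y := by rw [← h]; simp [sg]
        subst hx
        rcases hy' with rfl | rfl
        · exact ⟨_, mem_Bb hi 5, by simp [Bb], by simp [Bb]⟩
        · exact ⟨_, mem_Bb hi 1, by simp [Bb], by simp [Bb]⟩

theorem cv_all (m : ℕ) (x y : Pt m) (h : x ≠ y) : Cv m x y := by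
  rcases x with a | ⟨x, k⟩ <;> rcases y with b | ⟨y, l⟩
  · refine ⟨_, mem_Bc 0, ?_, ?_⟩
    · cases a <;> simp [Bc]
    · cases b <;> simp [Bc]
  · exact cv_inl m a y l
  · exact (cv_inl m b x k).symm
  · by_cases hkl : k = l
    · subst hkl
      have hxy : x ≠ y := fun e => h (by rw [e])
      refine ⟨_, mem_Ba hxy k, ?_, ?_⟩
      · unfold Ba
        rw [mem_union]
        left
        exact mem_image_of_mem (fun x => (Sum.inr (x, k) : Pt m)) (mem_insert_self _ _)
      · unfold Ba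
        rw [mem_union]
        left
        exact mem_image_of_mem (fun x => (Sum.inr (x, k) : Pt m))
          (mem_insert_of_mem (mem_singleton_self _))
    · have : l = k + 1 ∨ k = l + 1 := by
        clear h
        revert hkl; revert k l; decide
      rcases this with rfl | rfl
      · exact cv_succ m x y k
      · exact (cv_succ m y x l).symm

end R922.DOM.PC5

namespace R922.DOM

open PC5 in
theorem c5_proof : R922.DOM.C5 := by
  intro m
  refine ⟨Pt m, inferInstance, inferInstance, CC m, ?_, ?_, ?_, card_CC m⟩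
  · rw [Fintype.card_sum, Fintype.card_bool, Fintype.card_prod, ZMod.card, Fintype.card_fin]
    ring
  · exact card_blocks m
  · exact cv_all m

end R922.DOM
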