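import Pool.Agent.R922.DOM.Defs

/-!
Project DOM, piece CALL: combine the coverings by `n mod 6`.
-/

namespace R922.DOM

theorem call_proof : R922.DOM.CALL := by
  intro hT hP h3 h1 h0 h5 n hn
  apply hT n _ hn
  obtain ⟨m, r, hr, rfl⟩ : ∃ m r, r < 6 ∧ n = 6 * m + r := ⟨n / 6, n % 6, by omega, by omega⟩
  interval_cases r
  · have e : (6 * m + 0) * ((6 * m + 0) / 2) + 2 = 3 * (6 * m ^ 2) + 2 := by
      have : (6 * m + 0) / 2 = 3 * m := by omega
      rw [this]; ring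
    rw [e, show (3 * (6 * m ^ 2) + 2) / 3 = 6 * m ^ 2 by omega]
    exact h0 m (by omega)
  · have e : (6 * m + 1) * ((6 * m + 1) / 2) + 2 = 3 * (m * (6 * m + 1)) + 2 := by
      have : (6 * m + 1) / 2 = 3 * m := by omega
      rw [this]; ring
    rw [e, show (3 * (m * (6 * m + 1)) + 2) / 3 = m * (6 * m + 1) by omega]
    exact h1 m (by omega)
  · have e : (6 * m + 2) * ((6 * m + 2) / 2) + 2 = 3 * (m * (6 * m + 1) + (3 * m + 1)) + 1 := by
      have : (6 * m + 2) / 2 = 3 * m + 1 := by omega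
      rw [this]; ring
    rw [e, show (3 * (m * (6 * m + 1) + (3 * m + 1)) + 1) / 3 =
      m * (6 * m + 1) + (3 * m + 1) by omega]
    have h := hP (6 * m + 1) _ (h1 m (by omega))
    rwa [show (6 * m + 1 + 1) / 2 = 3 * m + 1 by omega] at h
  · have e : (6 * m + 3) * ((6 * m + 3) / 2) + 2 = 3 * ((2 * m + 1) * (3 * m + 1)) + 2 := by
      have : (6 * m + 3) / 2 = 3 * m + 1 := by omega
      rw [this]; ring
    rw [e, show (3 * ((2 * m + 1) * (3 * m + 1)) + 2) / 3 = (2 * m + 1) * (3 * m + 1) by omega]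
    exact h3 m
  · have e : (6 * m + 4) * ((6 * m + 4) / 2) + 2 =
        3 * ((2 * m + 1) * (3 * m + 1) + (3 * m + 2)) + 1 := by
      have : (6 * m + 4) / 2 = 3 * m + 2 := by omega
      rw [this]; ring
    rw [e, show (3 * ((2 * m + 1) * (3 * m + 1) + (3 * m + 2)) + 1) / 3 =
      (2 * m + 1) * (3 * m + 1) + (3 * m + 2) by omega]
    have h := hP (6 * m + 3) _ (h3 m)
    rwa [show (6 * m + 3 + 1) / 2 = 3 * m + 2 by omega] at h
  · have e : (6 * m + 5) * ((6 * m + 5) / 2) + 2 = 3 * (6 * m ^ 2 + 9 * m + 4) := by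
      have : (6 * m + 5) / 2 = 3 * m + 2 := by omega
      rw [this]; ring
    rw [e, show (3 * (6 * m ^ 2 + 9 * m + 4)) / 3 = 6 * m ^ 2 + 9 * m + 4 by omega]
    exact h5 m

end R922.DOM
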