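import Mathlib

/-!
Project DOM (MP_9be8d1_co, helper922).  Definitions and exact statements of the pieces.
-/

namespace R922.DOM

open Finset

/-! ### Coverings of pairs by triples -/

/-- there are at most `b` triples of points of `Fin n` covering all pairs of distinct points -/
def Cov (n b : ℕ) : Prop :=
  ∃ C : Finset (Finset (Fin n)), (∀ c ∈ C, c.card = 3) ∧
    (∀ x y : Fin n, x ≠ y → ∃ c ∈ C, x ∈ c ∧ y ∈ c) ∧ C.card ≤ b

/-- a family of at most `b` blocks of at most three points covering all pairs of distinct points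
of a finite set `P` of `n` points; easier to build than `Cov`. -/
def WCov (n b : ℕ) : Prop :=
  ∃ (P : Type) (_ : Fintype P) (_ : DecidableEq P) (C : Finset (Finset P)), Fintype.card P = n ∧
    (∀ c ∈ C, c.card ≤ 3) ∧
    (∀ x y : P, x ≠ y → ∃ c ∈ C, x ∈ c ∧ y ∈ c) ∧ C.card ≤ b

/-- piece CTR -/
def CTR : Prop := ∀ n b : ℕ, 3 ≤ n → WCov n b → Cov n b

/-- piece CPLUS: adding one point -/
def CPLUS : Prop := ∀ n b : ℕ, WCov n b → WCov (n + 1) (b + (n + 1) / 2)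

/-- piece C3 (Bose) -/
def C3 : Prop := ∀ m : ℕ, WCov (6 * m + 3) ((2 * m + 1) * (3 * m + 1))

/-- piece C1 (Skolem) -/
def C1 : Prop := ∀ m : ℕ, 1 ≤ m → WCov (6 * m + 1) (m * (6 * m + 1))

/-- piece C0 -/
def C0 : Prop := ∀ m : ℕ, 1 ≤ m → WCov (6 * m) (6 * m ^ 2)

/-- piece C5 -/
def C5 : Prop := ∀ m : ℕ, WCov (6 * m + 5) (6 * m ^ 2 + 9 * m + 4)

/-- piece CALL -/
def CALL : Prop := CTR → CPLUS → C3 → C1 → C0 → C5 →
  ∀ n : ℕ, 3 ≤ n → Cov n ((n * (n / 2) + 2) / 3)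

/-! ### The inequality -/

variable {α : Type} [DecidableEq α]

/-- `S` is dominated: every `v ∈ S` has an edge meeting `S` exactly in `v` -/
def Dom (H : Finset (Finset α)) (S : Finset α) : Prop :=
  ∀ v ∈ S, ∃ e ∈ H, e ∩ S = {v}

/-- dominated number at most `s` -/
def Phi (H : Finset (Finset α)) (s : ℕ) : Prop := ∀ S, Dom H S → S.card ≤ s

/-- no edge contains another one -/
def Clutter (H : Finset (Finset α)) : Prop := ∀ e ∈ H, ∀ e' ∈ H, e ⊆ e' → e = e'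

/-- twice `⌊s(s+2)/2⌋` -/
def Q (s : ℕ) : ℕ := 2 * (s * (s + 2) / 2)

/-- the weights -/
noncomputable def w (s k : ℕ) : ℚ :=
  if k = 0 then 1 else if k = 1 then 1 / (s : ℚ)
  else ((s + 1 : ℕ) * (s + 2 : ℕ) : ℚ) / ((Q s : ℚ) * ((s + k).choose k : ℚ))

/-- piece WREC -/
def WREC : Prop := (∀ s k : ℕ, 1 ≤ s → 3 ≤ k → (k : ℚ) * w s (k - 1) = ((k : ℚ) + s) * w s k) ∧
  (∀ s : ℕ, 1 ≤ s → w s 2 = 2 / (Q s : ℚ)) ∧ (∀ s k : ℕ, 0 ≤ w s k)

/-- piece WMON -/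
def WMON : Prop := ∀ s t k : ℕ, 1 ≤ t → t ≤ s → 2 ≤ k →
  w s k ≤ ((Q t : ℚ) / (Q s : ℚ)) * w t k

/-- piece QIN: `d/s + Q (s-d)/Q s ≤ 1` -/
def QIN : Prop := ∀ s d : ℕ, 1 ≤ s → d ≤ s →
  (d : ℚ) / (s : ℚ) + (Q (s - d) : ℚ) / (Q s : ℚ) ≤ 1

/-- the neighbours of `x` (other ends of 2-edges at `x`) -/
def nb (H : Finset (Finset α)) (X : Finset α) (x : α) : Finset α :=
  X.filter (fun y => y ≠ x ∧ ({x, y} : Finset α) ∈ H)

/-- piece GR (graph inequality): `n` is the neighbourhood function of a finite simple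
graph, all degrees at most `s`, and all `|n x ∪ n y \ {x,y}| ≤ s` for adjacent `x,y`. -/
def GR : Prop := ∀ (α : Type) [DecidableEq α] (X : Finset α) (n : α → Finset α) (s : ℕ),
  1 ≤ s → (∀ x ∈ X, n x ⊆ X) → (∀ x ∈ X, x ∉ n x) → (∀ x ∈ X, ∀ y ∈ X, y ∈ n x ↔ x ∈ n y) →
  (∀ x ∈ X, (n x).card ≤ s) →
  (∀ x ∈ X, ∀ y ∈ n x, ((n x ∪ n y) \ {x, y}).card ≤ s) →
  ∑ x ∈ X, ∑ y ∈ n x, ((s : ℤ) * ((((n x ∪ n y) \ {x, y}).card : ℤ) + 2) - Q s) ≤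
    ∑ x ∈ X, ((s : ℤ) * Q s - (n x).card * Q s - s * Q (s - (n x).card))

end R922.DOM
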