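import Mathlib
import Pool.Agent.R922.DOM.Defs

namespace R922.DOM

open Finset

theorem cplus_proof : CPLUS := by
  classical
  rintro n b ⟨P, hP, hD, C, hcard, h3, hcov, hb⟩
  let f : P ≃ Fin n := Fintype.equivFinOfCardEq hcard
  let blk : ℕ → Finset (Option P) := fun i =>
    insert none ((Finset.univ.filter (fun p : P => (f p : ℕ) / 2 = i)).map Function.Embedding.some)
  have hblk : ∀ i, (blk i).card ≤ 3 := by
    intro i
    refine le_trans (Finset.card_insert_le _ _) ?_
    rw [Finset.card_map]
    have : (Finset.univ.filter (fun p : P => (f p : ℕ) / 2 = i)).card ≤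
        ({2 * i, 2 * i + 1} : Finset ℕ).card := by
      refine Finset.card_le_card_of_injOn (fun p => (f p : ℕ)) ?_ ?_
      · intro p hp
        have hp' : (f p : ℕ) / 2 = i := by simpa using hp
        simp only [Finset.coe_insert, Finset.coe_singleton, Set.mem_insert_iff,
          Set.mem_singleton_iff]
        omega
      · intro p _ q _ hpq
        exact f.injective (Fin.ext hpq)
    have h2 : ({2 * i, 2 * i + 1} : Finset ℕ).card ≤ 2 := Finset.card_le_two
    omega
  refine ⟨Option P, inferInstance, inferInstance,
    C.image (fun c => c.map Function.Embedding.some) ∪ (Finset.range ((n + 1) / 2)).image blk,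
    by rw [Fintype.card_option, hcard], ?_, ?_, ?_⟩
  · intro c hc
    rcases Finset.mem_union.1 hc with hc | hc
    · obtain ⟨c', hc', rfl⟩ := Finset.mem_image.1 hc
      rw [Finset.card_map]
      exact h3 c' hc'
    · obtain ⟨i, _, rfl⟩ := Finset.mem_image.1 hc
      exact hblk i
  · have key : ∀ x : P, ∃ c ∈ C.image (fun c => c.map Function.Embedding.some) ∪
        (Finset.range ((n + 1) / 2)).image blk, (none : Option P) ∈ c ∧ some x ∈ c := by
      intro x
      refine ⟨blk ((f x : ℕ) / 2), Finset.mem_union_right _ (Finset.mem_image_of_mem _ ?_), ?_, ?_⟩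
      · rw [Finset.mem_range]
        have := (f x).isLt
        omega
      · exact Finset.mem_insert_self _ _
      · refine Finset.mem_insert_of_mem (Finset.mem_map.2 ⟨x, ?_, rfl⟩)
        simp
    rintro (_ | x) (_ | y) hxy
    · exact absurd rfl hxy
    · exact key y
    · obtain ⟨c, hc, h1, h2⟩ := key x
      exact ⟨c, hc, h2, h1⟩
    · obtain ⟨c, hc, hx, hy⟩ := hcov x y (fun h => hxy (by rw [h]))
      refine ⟨c.map Function.Embedding.some, Finset.mem_union_left _
        (Finset.mem_image_of_mem _ hc), ?_, ?_⟩
      · exact Finset.mem_map.2 ⟨x, hx, rfl⟩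
      · exact Finset.mem_map.2 ⟨y, hy, rfl⟩
  · refine le_trans (Finset.card_union_le _ _) (Nat.add_le_add ?_ ?_)
    · exact le_trans Finset.card_image_le hb
    · refine le_trans Finset.card_image_le ?_
      rw [Finset.card_range]

end R922.DOM
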