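import Mathlib
import Pool.Agent.R922.DOM.Defs

namespace R922.DOM

open Finset

theorem ctr_proof : CTR := by
  classical
  rintro n b hn ⟨P, hP, hD, C, hcard, h3, hcov, hb⟩
  let f : P ≃ Fin n := Fintype.equivFinOfCardEq hcard
  have hex : ∀ c : Finset P, ∃ t : Finset (Fin n), c ∈ C → c.map f.toEmbedding ⊆ t ∧ t.card = 3 := by
    intro c
    by_cases hc : c ∈ C
    · obtain ⟨t, ht, htc⟩ := Finset.exists_superset_card_eq (s := c.map f.toEmbedding) (n := 3)
        (by rw [Finset.card_map]; exact h3 c hc) (by simpa using hn)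
      exact ⟨t, fun _ => ⟨ht, htc⟩⟩
    · exact ⟨∅, fun h => absurd h hc⟩
  choose t ht using hex
  refine ⟨C.image t, ?_, ?_, ?_⟩
  · intro c hc
    obtain ⟨c', hc', rfl⟩ := Finset.mem_image.1 hc
    exact (ht c' hc').2
  · intro x y hxy
    obtain ⟨c, hc, hx, hy⟩ := hcov (f.symm x) (f.symm y) (fun h => hxy (f.symm.injective h))
    refine ⟨t c, Finset.mem_image_of_mem t hc, (ht c hc).1 ?_, (ht c hc).1 ?_⟩
    · exact Finset.mem_map.2 ⟨_, hx, by simp⟩
    · exact Finset.mem_map.2 ⟨_, hy, by simp⟩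
  · exact le_trans Finset.card_image_le hb

end R922.DOM
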