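import Pool.Agent.R922.DOM.PDefs

/-! DOM-LOW, DOM-STAR, DOM-STC (helper164). -/

namespace R922.DOMP

open Finset

theorem low_proof : R922.DOMP.LOW := by
  intro r s hr hs C hC
  obtain ⟨hC1, hC2⟩ := hC
  have hsub : C ⊆ powersetCard r (univ : Finset (Fin (s + r))) := by
    intro c hc
    rw [mem_powersetCard]
    exact ⟨subset_univ _, hC1 c hc⟩
  refine ⟨powersetCard r univ \ C, ?_, ?_, ?_⟩
  · intro e he
    exact (mem_powersetCard.mp (mem_sdiff.mp he).1).2
  · intro S hS
    by_contra hcon
    have hlt : s + 1 ≤ S.card := by omega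
    obtain ⟨S', hS'S, hS'c⟩ := exists_subset_card_eq hlt
    have hRc : (S'ᶜ).card = r - 1 := by
      rw [card_compl, hS'c, Fintype.card_fin]
      omega
    obtain ⟨c, hc, hRc2⟩ := hC2 S'ᶜ hRc
    have hcc := hC1 c hc
    have h1 : (c \ S'ᶜ).card = 1 := by
      rw [card_sdiff_of_subset hRc2, hcc, hRc]
      omega
    obtain ⟨v, hv⟩ := card_eq_one.mp h1
    have hvm : v ∈ c \ S'ᶜ := by rw [hv]; exact mem_singleton_self v
    rw [mem_sdiff, mem_compl, not_not] at hvm
    obtain ⟨e, heH, hve, heu⟩ := hS v (by
      show ¬ (v ∉ S)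
      rw [not_not]
      exact hS'S hvm.2)
    obtain ⟨he1, he2⟩ := mem_sdiff.mp heH
    have hec := (mem_powersetCard.mp he1).2
    have hsubR : e.erase v ⊆ S'ᶜ := by
      intro u hu
      rw [mem_erase] at hu
      have h2 : u ∉ S := heu u hu.2 hu.1
      rw [mem_compl]
      exact fun h3 => h2 (hS'S h3)
    have heq : e.erase v = S'ᶜ := by
      apply eq_of_subset_of_card_le hsubR
      rw [hRc, card_erase_of_mem hve, hec]
    have hec2 : e = c := by
      have h3 : e = insert v S'ᶜ := by rw [← heq, insert_erase hve]
      have h4 : c = insert v S'ᶜ := by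
        have := sdiff_union_of_subset hRc2
        rw [hv] at this
        rw [← this]
        rfl
      rw [h3, h4]
    rw [hec2] at he2
    exact he2 hc
  · rw [card_sdiff_of_subset hsub, card_powersetCard, card_univ, Fintype.card_fin]
    have := card_le_card hsub
    rw [card_powersetCard, card_univ, Fintype.card_fin] at this
    omega

theorem star_proof : R922.DOMP.STAR := by
  intro r s hr hs
  set z : Fin (s + r) := ⟨0, by omega⟩ with hz
  refine ⟨(powersetCard (r - 1) (univ.erase z)).image (insert z), ⟨?_, ?_⟩, ?_⟩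
  · intro c hc
    obtain ⟨R, hR, rfl⟩ := mem_image.mp hc
    obtain ⟨h1, h2⟩ := mem_powersetCard.mp hR
    rw [card_insert_of_notMem, h2]
    · omega
    · intro h
      exact (mem_erase.mp (h1 h)).1 rfl
  · intro R hR
    by_cases hzR : z ∈ R
    · have hex : ∃ v, v ∉ R := by
        by_contra hcon
        push Not at hcon
        have : R = univ := eq_univ_iff_forall.mpr hcon
        rw [this, card_univ, Fintype.card_fin] at hR
        omega
      obtain ⟨v, hv⟩ := hex
      have hvz : v ≠ z := fun h => hv (h ▸ hzR)
      refine ⟨insert z (insert v (R.erase z)), ?_, ?_⟩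
      · rw [mem_image]
        refine ⟨insert v (R.erase z), ?_, rfl⟩
        rw [mem_powersetCard]
        refine ⟨?_, ?_⟩
        · intro u hu
          rw [mem_insert] at hu
          rw [mem_erase]
          rcases hu with hu | hu
          · rw [hu]; exact ⟨hvz, mem_univ _⟩
          · exact ⟨(mem_erase.mp hu).1, mem_univ _⟩
        · rw [card_insert_of_notMem, card_erase_of_mem hzR, hR]
          · have : 0 < R.card := card_pos.mpr ⟨z, hzR⟩
            omega
          · intro h
            exact hv (mem_erase.mp h).2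
      · intro u hu
        rw [mem_insert, mem_insert, mem_erase]
        by_cases huz : u = z
        · exact Or.inl huz
        · exact Or.inr (Or.inr ⟨huz, hu⟩)
    · refine ⟨insert z R, ?_, subset_insert _ _⟩
      rw [mem_image]
      refine ⟨R, ?_, rfl⟩
      rw [mem_powersetCard]
      refine ⟨?_, hR⟩
      intro u hu
      rw [mem_erase]
      exact ⟨fun h => hzR (h ▸ hu), mem_univ _⟩
  · rw [card_image_of_injOn]
    · rw [card_powersetCard, card_erase_of_mem (mem_univ _), card_univ, Fintype.card_fin]
    · intro a ha b hb hab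
      have ha' := (mem_powersetCard.mp (mem_coe.mp ha)).1
      have hb' := (mem_powersetCard.mp (mem_coe.mp hb)).1
      have hza : z ∉ a := fun h => (mem_erase.mp (ha' h)).1 rfl
      have hzb : z ∉ b := fun h => (mem_erase.mp (hb' h)).1 rfl
      have h1 : (insert z a).erase z = (insert z b).erase z := by
        have : insert z a = insert z b := hab
        rw [this]
      rwa [erase_insert hza, erase_insert hzb] at h1

theorem stc_proof : R922.DOMP.STC := by
  intro n r C hr hC
  obtain ⟨h1, h2⟩ := hC
  refine ⟨⟨h1, ?_⟩, ?_⟩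
  · intro R hR
    obtain ⟨c, ⟨hc1, hc2⟩, -⟩ := h2 R hR
    exact ⟨c, hc1, hc2⟩
  · have key := sum_card_bipartiteAbove_eq_sum_card_bipartiteBelow
      (s := powersetCard (r - 1) (univ : Finset (Fin n))) (t := C) (fun R c => R ⊆ c)
    have e1 : ∀ R ∈ powersetCard (r - 1) (univ : Finset (Fin n)),
        (bipartiteAbove (fun R c => R ⊆ c) C R).card = 1 := by
      intro R hR
      obtain ⟨c, ⟨hc1, hc2⟩, hc3⟩ := h2 R (mem_powersetCard.mp hR).2
      rw [card_eq_one]
      refine ⟨c, ?_⟩
      ext c'
      rw [mem_bipartiteAbove, mem_singleton]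
      constructor
      · intro h
        exact hc3 c' h
      · intro h
        rw [h]
        exact ⟨hc1, hc2⟩
    have e2 : ∀ c ∈ C, (bipartiteBelow (fun R c => R ⊆ c)
        (powersetCard (r - 1) (univ : Finset (Fin n))) c).card = r := by
      intro c hc
      have e3 : bipartiteBelow (fun R c => R ⊆ c) (powersetCard (r - 1) (univ : Finset (Fin n))) c =
          powersetCard (r - 1) c := by
        ext R
        rw [mem_bipartiteBelow, mem_powersetCard, mem_powersetCard]
        constructor
        · intro h; exact ⟨h.2, h.1.2⟩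
        · intro h; exact ⟨⟨subset_univ _, h.2⟩, h.1⟩
      rw [e3, card_powersetCard, h1 c hc]
      obtain ⟨k, rfl⟩ : ∃ k, r = k + 1 := ⟨r - 1, by omega⟩
      rw [Nat.add_sub_cancel, Nat.choose_succ_self_right]
    rw [sum_congr rfl e1, sum_congr rfl e2, sum_const, sum_const, card_powersetCard, card_univ,
      Fintype.card_fin] at key
    simp only [smul_eq_mul, mul_one] at key
    rw [key, mul_comm]

end R922.DOMP
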