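import Mathlib
import Pool.Agent.R922.DOM.Defs

/-!
Pieces WREC, WMON, QIN of project DOM.
-/

namespace R922.DOM

open Finset

lemma Q_add_mod (s : ℕ) : Q s + s % 2 = s * (s + 2) := by
  have h : (s * (s + 2)) % 2 = s % 2 := by
    rcases Nat.mod_two_eq_zero_or_one s with h | h <;>
      simp [Nat.mul_mod, h]
  have h2 := Nat.div_add_mod (s * (s + 2)) 2
  unfold Q
  omega

lemma Q_pos {s : ℕ} (hs : 1 ≤ s) : 0 < Q s := by
  have h1 := Q_add_mod s
  have h2 : s % 2 ≤ 1 := by omega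
  nlinarith

lemma choose_pos' (s k : ℕ) : 0 < (s + k).choose k := Nat.choose_pos (Nat.le_add_left k s)

lemma choose_rec (s j : ℕ) : (s + j + 1) * (s + j).choose j = (s + (j + 1)).choose (j + 1) * (j + 1) :=
  Nat.add_one_mul_choose_eq (s + j) j

lemma w_two_le {s k : ℕ} (hk : 2 ≤ k) :
    w s k = ((s + 1 : ℕ) * (s + 2 : ℕ) : ℚ) / ((Q s : ℚ) * ((s + k).choose k : ℚ)) := by
  unfold w
  rw [if_neg (by omega), if_neg (by omega)]

theorem wrec_proof : WREC := by
  refine ⟨?_, ?_, ?_⟩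
  · intro s k hs hk
    obtain ⟨j, rfl⟩ : ∃ j, k = j + 1 := ⟨k - 1, by omega⟩
    rw [Nat.add_sub_cancel, w_two_le (by omega : 2 ≤ j), w_two_le (by omega : 2 ≤ j + 1)]
    have h1 := choose_rec s j
    have h1' : ((s : ℚ) + j + 1) * ((s + j).choose j : ℚ) =
        ((s + (j + 1)).choose (j + 1) : ℚ) * ((j : ℚ) + 1) := by exact_mod_cast h1
    have hQ : (0 : ℚ) < (Q s : ℚ) := by exact_mod_cast Q_pos hs
    have hc1 : (0 : ℚ) < ((s + j).choose j : ℚ) := by exact_mod_cast choose_pos' s j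
    have hc2 : (0 : ℚ) < ((s + (j + 1)).choose (j + 1) : ℚ) := by
      exact_mod_cast choose_pos' s (j + 1)
    rw [mul_div_assoc', mul_div_assoc', div_eq_div_iff (by positivity) (by positivity)]
    push_cast
    linear_combination (-((s : ℚ) + 1) * (s + 2) * Q s) * h1'
  · intro s hs
    rw [w_two_le le_rfl]
    have hQ : (0 : ℚ) < (Q s : ℚ) := by exact_mod_cast Q_pos hs
    rw [Nat.cast_choose_two]
    push_cast
    have h1 : (0 : ℚ) < (s : ℚ) := by exact_mod_cast hs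
    have h2 : ((s : ℚ) + 2 - 1) = s + 1 := by ring
    rw [h2]
    field_simp
  · intro s k
    unfold w
    split_ifs <;> positivity

lemma choose_mono_ratio (s t : ℕ) (hts : t ≤ s) (j : ℕ) :
    (s + 1) * (s + 2) * (t + (j + 2)).choose (j + 2) ≤
      (t + 1) * (t + 2) * (s + (j + 2)).choose (j + 2) := by
  induction j with
  | zero =>
    have h1 : ∀ u : ℕ, (u + (0 + 2)).choose (0 + 2) * 2 = (u + 2) * (u + 1) := by
      intro u
      have h3 := choose_rec u 1
      have h4 := choose_rec u 0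
      simp only [Nat.add_zero, Nat.choose_zero_right, Nat.mul_one, Nat.zero_add] at h3 h4
      have h5 : (u + (0 + 2)).choose (0 + 2) * 2 = (u + 1 + 1) * (u + 1).choose 1 := by
        rw [h3]
      rw [h5, Nat.choose_one_right]
    have h2 := h1 s
    have h3 := h1 t
    have h4 : 2 * ((s + 1) * (s + 2) * (t + (0 + 2)).choose (0 + 2)) =
        2 * ((t + 1) * (t + 2) * (s + (0 + 2)).choose (0 + 2)) := by
      calc 2 * ((s + 1) * (s + 2) * (t + (0 + 2)).choose (0 + 2))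
          = (s + 1) * (s + 2) * ((t + (0 + 2)).choose (0 + 2) * 2) := by ring
        _ = (t + 1) * (t + 2) * ((s + (0 + 2)).choose (0 + 2) * 2) := by rw [h3, h2]; ring
        _ = _ := by ring
    omega
  | succ j ih =>
    have h1 := choose_rec t (j + 2)
    have h2 := choose_rec s (j + 2)
    have h3 : (j + 3) * ((s + 1) * (s + 2) * (t + (j + 1 + 2)).choose (j + 1 + 2)) ≤
        (j + 3) * ((t + 1) * (t + 2) * (s + (j + 1 + 2)).choose (j + 1 + 2)) := by
      calc (j + 3) * ((s + 1) * (s + 2) * (t + (j + 1 + 2)).choose (j + 1 + 2))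
          = (s + 1) * (s + 2) * ((t + (j + 2 + 1)).choose (j + 2 + 1) * (j + 2 + 1)) := by
            rw [show j + 1 + 2 = j + 2 + 1 by ring]; ring
        _ = (t + (j + 2) + 1) * ((s + 1) * (s + 2) * (t + (j + 2)).choose (j + 2)) := by
            rw [← h1]; ring
        _ ≤ (s + (j + 2) + 1) * ((t + 1) * (t + 2) * (s + (j + 2)).choose (j + 2)) :=
            Nat.mul_le_mul (by omega) ih
        _ = (t + 1) * (t + 2) * ((s + (j + 2 + 1)).choose (j + 2 + 1) * (j + 2 + 1)) := by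
            rw [← h2]; ring
        _ = (j + 3) * ((t + 1) * (t + 2) * (s + (j + 1 + 2)).choose (j + 1 + 2)) := by
            rw [show j + 1 + 2 = j + 2 + 1 by ring]; ring
    exact Nat.le_of_mul_le_mul_left h3 (by omega)

theorem wmon_proof : WMON := by
  intro s t k ht hts hk
  rw [w_two_le hk, w_two_le hk]
  obtain ⟨j, rfl⟩ : ∃ j, k = j + 2 := ⟨k - 2, by omega⟩
  have h1 := choose_mono_ratio s t hts j
  have h1' : ((s : ℚ) + 1) * (s + 2) * ((t + (j + 2)).choose (j + 2) : ℚ) ≤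
      (t + 1) * (t + 2) * ((s + (j + 2)).choose (j + 2) : ℚ) := by exact_mod_cast h1
  have hQs : (0 : ℚ) < (Q s : ℚ) := by exact_mod_cast Q_pos (le_trans ht hts)
  have hQt : (0 : ℚ) < (Q t : ℚ) := by exact_mod_cast Q_pos ht
  have hc1 : (0 : ℚ) < ((t + (j + 2)).choose (j + 2) : ℚ) := by
    exact_mod_cast choose_pos' t (j + 2)
  have hc2 : (0 : ℚ) < ((s + (j + 2)).choose (j + 2) : ℚ) := by
    exact_mod_cast choose_pos' s (j + 2)
  have h2 : (Q t : ℚ) / Q s * (((t + 1 : ℕ) * (t + 2 : ℕ) : ℚ) /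
      ((Q t : ℚ) * ((t + (j + 2)).choose (j + 2) : ℚ))) =
      ((t + 1 : ℕ) * (t + 2 : ℕ) : ℚ) / ((Q s : ℚ) * ((t + (j + 2)).choose (j + 2) : ℚ)) := by
    field_simp
  rw [h2, div_le_div_iff₀ (by positivity) (by positivity)]
  push_cast
  have h3 := mul_le_mul_of_nonneg_left h1' hQs.le
  nlinarith [h3]

lemma Q_ratio (s t : ℕ) (hs : 1 ≤ s) (hts : t ≤ s) : s * Q t ≤ t * Q s := by
  rcases Nat.eq_or_lt_of_le hts with h | h
  · rw [h]
  · have h1 := Q_add_mod s
    have h2 := Q_add_mod t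
    have h3 : s % 2 ≤ 1 := by omega
    have h4 : Q t ≤ t * (t + 2) := by omega
    have h5 : s * (s + 2) ≤ Q s + 1 := by omega
    have h6 : s * Q t ≤ s * (t * (t + 2)) := Nat.mul_le_mul_left s h4
    have h7 : t * (s * (s + 2)) ≤ t * (Q s + 1) := Nat.mul_le_mul_left t h5
    obtain ⟨e, rfl⟩ : ∃ e, s = t + 1 + e := ⟨s - t - 1, by omega⟩
    nlinarith [Nat.zero_le (t * e), Nat.zero_le (t * t * e), Nat.zero_le (t * e * e),
      Nat.zero_le (t * t)]

theorem qin_nat (s d : ℕ) (hs : 1 ≤ s) (hd : d ≤ s) :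
    d * Q s + s * Q (s - d) ≤ s * Q s := by
  have h1 := Q_ratio s (s - d) hs (Nat.sub_le s d)
  have h2 : s * Q s = d * Q s + (s - d) * Q s := by
    rw [← Nat.add_mul, Nat.add_sub_cancel' hd]
  omega

theorem qin_proof : QIN := by
  intro s d hs hd
  have h1 := qin_nat s d hs hd
  have h1' : (d : ℚ) * Q s + s * Q (s - d) ≤ s * Q s := by exact_mod_cast h1
  have hQs : (0 : ℚ) < (Q s : ℚ) := by exact_mod_cast Q_pos hs
  have hs' : (0 : ℚ) < (s : ℚ) := by exact_mod_cast hs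
  rw [div_add_div _ _ hs'.ne' hQs.ne', div_le_one (by positivity)]
  exact h1'

end R922.DOM
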