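import Pool.Agent.R922.DOM.LYM
import Pool.Agent.R922.DOM.C0
import Pool.Agent.R922.DOM.C1
import Pool.Agent.R922.DOM.C3
import Pool.Agent.R922.DOM.C5
import Pool.Agent.R922.DOM.CALL
import Pool.Agent.R922.DOM.CPLUS
import Pool.Agent.R922.DOM.CTR
import Pool.Agent.R922.DOM.Low
import Pool.Agent.R922.DOM.W

namespace R922.DOMP

open Finset R922.DOM

/-- choose identity -/
theorem choose_id (r s : ℕ) (hr : 1 ≤ r) :
    (s + r).choose r * r = (s + r).choose (r - 1) * (s + 1) := by
  have h := Nat.choose_succ_right_eq (s + r) (r - 1)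
  have h1 : r - 1 + 1 = r := by omega
  have h2 : s + r - (r - 1) = s + 1 := by omega
  rw [h1, h2] at h
  exact h

theorem bound_gen (hGR : GR) {n r s : ℕ} (hr : 2 ≤ r) (hs : 1 ≤ s)
    (H : Finset (Finset (Fin n))) (hU : Uniform r H) (hP : PhiLe H s) :
    (s + 1) * (s + 2) * H.card ≤ 2 * (s * (s + 2) / 2) * (s + r).choose r :=
  uniform_bound wrec_proof wmon_proof hGR hr hs H hU hP

theorem bound_weak (hGR : GR) {n r s : ℕ} (hr : 2 ≤ r) (hs : 1 ≤ s)
    (H : Finset (Finset (Fin n))) (hU : Uniform r H) (hP : PhiLe H s) :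
    (s + 1) * H.card ≤ s * (s + r).choose r := by
  have h := bound_gen hGR hr hs H hU hP
  have h2 : 2 * (s * (s + 2) / 2) ≤ s * (s + 2) := Nat.mul_div_le _ _
  have h3 : (s + 2) * ((s + 1) * H.card) ≤ (s + 2) * (s * (s + r).choose r) := by
    calc (s + 2) * ((s + 1) * H.card) = (s + 1) * (s + 2) * H.card := by ring
      _ ≤ 2 * (s * (s + 2) / 2) * (s + r).choose r := h
      _ ≤ s * (s + 2) * (s + r).choose r := Nat.mul_le_mul_right _ h2
      _ = _ := by ring
  exact Nat.le_of_mul_le_mul_left h3 (by omega)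

/-- general principle: if the covering number meets the upper bound then everything is exact -/
theorem exact_of (hGR : GR) {r s : ℕ} (hr : 2 ≤ r) (hs : 1 ≤ s)
    (C : Finset (Finset (Fin (s + r)))) (hC : IsCovering (s + r) r C)
    (hub : 2 * (s * (s + 2) / 2) * (s + r).choose r <
      (s + 1) * (s + 2) * ((s + r).choose r - C.card + 1)) :
    IsCovNum (s + r) r C.card ∧ IsF r s ((s + r).choose r - C.card) ∧
      (s + r).choose r - C.card = max ((s + r - 1).choose r) ((s + r).choose r - C.card) := by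
  obtain ⟨H, hU, hP, hcard⟩ := low_proof r s (by omega) hs C hC
  have hle : C.card ≤ (s + r).choose r := by omega
  have hH : H.card = (s + r).choose r - C.card := by omega
  have hupper : ∀ (n : ℕ) (H' : Finset (Finset (Fin n))), Uniform r H' → PhiLe H' s →
      H'.card ≤ (s + r).choose r - C.card := by
    intro n H' hU' hP'
    have h := lt_of_le_of_lt (bound_gen hGR hr hs H' hU' hP') hub
    have h2 := Nat.lt_of_mul_lt_mul_left h
    omega
  refine ⟨⟨⟨C, hC, rfl⟩, ?_⟩, ⟨⟨_, H, hU, hP, hH⟩, hupper⟩, ?_⟩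
  · intro C' hC'
    obtain ⟨H', hU', hP', hcard'⟩ := low_proof r s (by omega) hs C' hC'
    have := hupper _ H' hU' hP'
    omega
  · obtain ⟨C', hC', hc'⟩ := star_proof r s (by omega) hs
    obtain ⟨H', hU', hP', hcard'⟩ := low_proof r s (by omega) hs C' hC'
    have h := hupper _ H' hU' hP'
    have hpascal : (s + r).choose r = (s + r - 1).choose (r - 1) + (s + r - 1).choose r := by
      obtain ⟨t, ht⟩ : ∃ t, s + r = t + 1 := ⟨s + r - 1, by omega⟩
      obtain ⟨q, hq⟩ : ∃ q, r = q + 1 := ⟨r - 1, by omega⟩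
      rw [ht]
      conv_lhs => rw [hq]
      rw [Nat.choose_succ_succ]
      simp only [hq, Nat.add_sub_cancel]
    rw [max_eq_right]
    omega

/-- Steiner systems -/
theorem steiner_exact (hGR : GR) {r s : ℕ} (hr : 2 ≤ r) (hs : 1 ≤ s)
    (C : Finset (Finset (Fin (s + r)))) (hC : IsSteiner (s + r) r C) :
    r ∣ (s + r).choose (r - 1) ∧
    IsCovNum (s + r) r ((s + r).choose (r - 1) / r) ∧
    IsF r s ((s + r).choose r - (s + r).choose (r - 1) / r) ∧
    (s + r).choose r - (s + r).choose (r - 1) / r =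
      max ((s + r - 1).choose r) ((s + r).choose r - (s + r).choose (r - 1) / r) := by
  obtain ⟨hcov, hcard⟩ := stc_proof (s + r) r C (by omega) hC
  have hdiv : (s + r).choose (r - 1) / r = C.card := by
    rw [← hcard]; exact Nat.mul_div_cancel_left _ (by omega)
  have hid := choose_id r s (by omega)
  rw [← hcard] at hid
  have hch : (s + r).choose r = C.card * (s + 1) := by
    have : r * ((s + r).choose r) = r * (C.card * (s + 1)) := by linarith
    exact Nat.eq_of_mul_eq_mul_left (by omega) this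
  have hub : 2 * (s * (s + 2) / 2) * (s + r).choose r <
      (s + 1) * (s + 2) * ((s + r).choose r - C.card + 1) := by
    have h2 : 2 * (s * (s + 2) / 2) ≤ s * (s + 2) := Nat.mul_div_le _ _
    have h3 : (s + r).choose r - C.card = s * C.card := by
      rw [hch]
      have : C.card * (s + 1) = s * C.card + C.card := by ring
      omega
    rw [h3, hch]
    calc 2 * (s * (s + 2) / 2) * (C.card * (s + 1)) ≤ s * (s + 2) * (C.card * (s + 1)) :=
          Nat.mul_le_mul_right _ h2
      _ < _ := by nlinarith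
  obtain ⟨h1, h2, h3⟩ := exact_of hGR hr hs C hcov hub
  rw [hdiv]
  exact ⟨⟨C.card, hcard.symm⟩, h1, h2, h3⟩

theorem covering_of_cov {n b : ℕ} (h : Cov n b) :
    ∃ C : Finset (Finset (Fin n)), IsCovering n 3 C ∧ C.card ≤ b := by
  obtain ⟨C, h1, h2, h3⟩ := h
  refine ⟨C, ⟨h1, ?_⟩, h3⟩
  intro R hR
  obtain ⟨x, y, hxy, rfl⟩ := card_eq_two.1 (by simpa using hR : R.card = 2)
  obtain ⟨c, hc, hx, hy⟩ := h2 x y hxy
  exact ⟨c, hc, by
    intro u hu
    simp only [mem_insert, mem_singleton] at hu
    rcases hu with rfl | rfl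
    · exact hx
    · exact hy⟩

/-- six times choose n 3 -/
theorem choose3 (s : ℕ) : 6 * (s + 3).choose 3 = (s + 3) * (s + 2) * (s + 1) := by
  induction s with
  | zero => decide
  | succ s ih =>
    have h : (s + 1 + 3).choose 3 = (s + 3).choose 2 + (s + 3).choose 3 := by
      rw [show s + 1 + 3 = (s + 3) + 1 by ring, Nat.choose_succ_succ]
    have h2 : 2 * (s + 3).choose 2 = (s + 3) * (s + 2) := by
      have := Nat.triangle_succ (s + 2)
      rw [Nat.choose_two_right]
      have h4 : (s + 3) * (s + 3 - 1) = (s + 3) * (s + 2) := by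
        congr 1
      rw [h4]
      apply Nat.mul_div_cancel'
      have : Even ((s + 2) * (s + 2 + 1)) := Nat.even_mul_succ_self (s + 2)
      rw [show (s + 3) * (s + 2) = (s + 2) * (s + 2 + 1) by ring]
      exact this.two_dvd
    rw [h]
    nlinarith

theorem three_exact (hGR : GR) {s : ℕ} (hs : 1 ≤ s) :
    IsCovNum (s + 3) 3 (((s + 3) * ((s + 3) / 2) + 2) / 3) ∧
    IsF 3 s ((s + 3).choose 3 - ((s + 3) * ((s + 3) / 2) + 2) / 3) ∧
    (s + 3).choose 3 - ((s + 3) * ((s + 3) / 2) + 2) / 3 =
      max ((s + 3 - 1).choose 3) ((s + 3).choose 3 - ((s + 3) * ((s + 3) / 2) + 2) / 3) := by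
  obtain ⟨C, hC, hcard⟩ := covering_of_cov
    (call_proof ctr_proof cplus_proof c3_proof c1_proof c0_proof c5_proof (s + 3) (by omega))
  set b := ((s + 3) * ((s + 3) / 2) + 2) / 3 with hb
  -- lower bound for coverings from the upper bound for hypergraphs
  have hch := choose3 s
  have key : 2 * (s * (s + 2) / 2) * (s + 3).choose 3 <
      (s + 1) * (s + 2) * ((s + 3).choose 3 - b + 1) := by
    have hQ : 2 * (s * (s + 2) / 2) * (s + 3) < 6 * ((s + 3).choose 3 - b + 1) := by
      have hb3 : 3 * b ≤ (s + 3) * ((s + 3) / 2) + 2 := by omega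
      rcases Nat.even_or_odd' s with ⟨t, ht | ht⟩
      · have e1 : s * (s + 2) / 2 = t * (s + 2) := by
          rw [ht, mul_assoc]; exact Nat.mul_div_cancel_left _ (by norm_num)
        have e2 : (s + 3) / 2 = t + 1 := by omega
        rw [e2] at hb3
        rw [e1]
        have : 6 * (s + 3).choose 3 = (2 * t + 3) * (2 * t + 2) * (2 * t + 1) := by
          rw [hch, ht]
        have hb4 : 6 * b ≤ 2 * ((2 * t + 3) * (t + 1)) + 4 := by
          rw [ht] at hb3; omega
        have h5 : 2 * (t * (2 * t + 2)) * (2 * t + 3) + 2 * ((2 * t + 3) * (t + 1)) + 4 <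
            (2 * t + 3) * (2 * t + 2) * (2 * t + 1) + 6 := by
          nlinarith
        have h6 : 2 * (t * (s + 2)) * (s + 3) = 2 * (t * (2 * t + 2)) * (2 * t + 3) := by
          rw [ht]
        rw [h6]
        omega
      · have e1 : s * (s + 2) / 2 = 2 * t * t + 4 * t + 1 := by
          rw [ht]
          have : (2 * t + 1) * (2 * t + 1 + 2) = 2 * (2 * t * t + 4 * t + 1) + 1 := by ring
          omega
        have e2 : (s + 3) / 2 = t + 2 := by omega
        rw [e2] at hb3
        rw [e1]
        have : 6 * (s + 3).choose 3 = (2 * t + 4) * (2 * t + 3) * (2 * t + 2) := by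
          rw [hch, ht]
        have hb4 : 6 * b ≤ 2 * ((2 * t + 4) * (t + 2)) + 4 := by
          rw [ht] at hb3
          have : 2 * t + 1 + 3 = 2 * t + 4 := by ring
          rw [this] at hb3
          omega
        have h5 : 2 * (2 * t * t + 4 * t + 1) * (2 * t + 4) + 2 * ((2 * t + 4) * (t + 2)) + 4 <
            (2 * t + 4) * (2 * t + 3) * (2 * t + 2) + 6 := by
          nlinarith
        have h6 : 2 * (2 * t * t + 4 * t + 1) * (s + 3) =
            2 * (2 * t * t + 4 * t + 1) * (2 * t + 4) := by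
          rw [ht]
        rw [h6]
        omega
    have h7 : (s + 1) * (s + 2) * (2 * (s * (s + 2) / 2) * (s + 3)) <
        (s + 1) * (s + 2) * (6 * ((s + 3).choose 3 - b + 1)) :=
      Nat.mul_lt_mul_of_pos_left hQ (by positivity)
    have h8 : (s + 1) * (s + 2) * (2 * (s * (s + 2) / 2) * (s + 3)) =
        6 * (2 * (s * (s + 2) / 2) * (s + 3).choose 3) := by
      calc _ = 2 * (s * (s + 2) / 2) * ((s + 3) * (s + 2) * (s + 1)) := by ring
        _ = 2 * (s * (s + 2) / 2) * (6 * (s + 3).choose 3) := by rw [hch]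
        _ = _ := by ring
    rw [h8] at h7
    have h9 : (s + 1) * (s + 2) * (6 * ((s + 3).choose 3 - b + 1)) =
        6 * ((s + 1) * (s + 2) * ((s + 3).choose 3 - b + 1)) := by ring
    rw [h9] at h7
    exact Nat.lt_of_mul_lt_mul_left h7
  have hub : 2 * (s * (s + 2) / 2) * (s + 3).choose 3 <
      (s + 1) * (s + 2) * ((s + 3).choose 3 - C.card + 1) :=
    lt_of_lt_of_le key (Nat.mul_le_mul_left _ (by omega))
  obtain ⟨h1, h2, h3⟩ := exact_of hGR (by norm_num) hs C hC hub
  -- the covering C has exactly b blocks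
  have hCb : C.card = b := by
    obtain ⟨⟨n, H, hU, hP, hc⟩, _⟩ := h2
    have h := lt_of_le_of_lt (bound_gen hGR (by norm_num) hs H hU hP) key
    have h' := Nat.lt_of_mul_lt_mul_left h
    have hle : C.card ≤ (s + 3).choose 3 := by
      obtain ⟨H, _, _, hcard⟩ := low_proof 3 s (by omega) hs C hC
      omega
    have hble : b ≤ (s + 3).choose 3 := by
      by_contra hcon
      push Not at hcon
      have h0 : (s + 3).choose 3 - b = 0 := by omega
      rw [h0] at key
      have hpos : 1 ≤ s * (s + 2) / 2 := by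
        have : 2 ≤ s * (s + 2) := by nlinarith
        omega
      have hq : s * (s + 2) ≤ 2 * (s * (s + 2) / 2) + 1 := by omega
      have h10 : 4 ≤ (s + 3).choose 3 := by nlinarith
      nlinarith
    omega
  rw [hCb] at h1 h2 h3
  exact ⟨h1, h2, h3⟩

end R922.DOMP
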