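import Pool.Agent.R128.IT.NibT
import Pool.Agent.R922.DOM.Final

namespace R922.DOMP

open Finset R922.DOM

/-- the Erdos-Hanani property from the nibble theorem -/
theorem packing (hN : R128.IT.Nibble) (r : ℕ) (hr : 2 ≤ r) (θ : ℝ) (hθ : 0 < θ) :
    ∃ n0 : ℕ, ∀ n : ℕ, n0 ≤ n → ∃ M : Finset (Finset (Fin n)),
      (∀ e ∈ M, e.card = r) ∧
      (∀ e ∈ M, ∀ f ∈ M, e ≠ f → Disjoint (e.powersetCard (r - 1)) (f.powersetCard (r - 1))) ∧
      (1 - θ) * (n.choose (r - 1) : ℝ) ≤ (r : ℝ) * M.card := by
  classical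
  obtain ⟨κ, hκ, h⟩ := hN r θ hθ
  obtain ⟨n1, hn1⟩ := exists_nat_gt (1 / κ)
  refine ⟨n1 + r, ?_⟩
  intro n hn
  have hnr : r ≤ n := by omega
  set w0 : ℝ := 1 / ((n - r + 1 : ℕ) : ℝ) with hw0
  have hpos : (0 : ℝ) < ((n - r + 1 : ℕ) : ℝ) := by positivity
  have hw0pos : 0 < w0 := by positivity
  have hw0κ : w0 ≤ κ := by
    rw [hw0, div_le_iff₀ hpos]
    have h1 : (1 : ℝ) < κ * n1 := by
      rw [div_lt_iff₀ hκ] at hn1
      linarith
    have h2 : (n1 : ℝ) ≤ ((n - r + 1 : ℕ) : ℝ) := by
      exact_mod_cast (by omega : n1 ≤ n - r + 1)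
    nlinarith
  obtain ⟨M, hM1, _, hM3⟩ := h {e : Finset (Fin n) // e.card = r} (Finset (Fin n))
    (fun e => e.1.powersetCard (r - 1)) (fun _ => w0)
    (fun _ => hw0pos.le)
    (by
      intro e
      rw [powersetCard_nonempty, e.2]
      omega)
    (by
      intro e
      rw [card_powersetCard, e.2]
      obtain ⟨q, rfl⟩ : ∃ q, r = q + 1 := ⟨r - 1, by omega⟩
      simp)
    (by
      intro v
      rw [sum_const, nsmul_eq_mul, hw0, mul_one_div, div_le_one hpos]
      by_cases hv : v.card = r - 1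
      · have hinj : (univ.filter (fun e : {e : Finset (Fin n) // e.card = r} =>
            v ∈ e.1.powersetCard (r - 1))).card ≤ (vᶜ).card := by
          have hsub : (univ.filter (fun e : {e : Finset (Fin n) // e.card = r} =>
            v ∈ e.1.powersetCard (r - 1))).map ⟨Subtype.val, Subtype.val_injective⟩ ⊆
            (vᶜ).image (fun x => insert x v) := by
            intro e he
            simp only [mem_map, mem_filter, mem_univ, true_and, Function.Embedding.coeFn_mk,
              mem_powersetCard] at he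
            obtain ⟨a, ⟨hva, _⟩, rfl⟩ := he
            have h1 : (a.1 \ v).card = 1 := by
              rw [card_sdiff_of_subset hva, a.2, hv]; omega
            obtain ⟨x, hx⟩ := card_eq_one.1 h1
            have hxa : x ∈ a.1 \ v := by rw [hx]; exact mem_singleton_self x
            rw [mem_image]
            refine ⟨x, by simpa using (mem_sdiff.1 hxa).2, ?_⟩
            rw [insert_eq, ← hx, sdiff_union_of_subset hva]
          have := card_le_card hsub
          rw [card_map] at this
          exact this.trans card_image_le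
        rw [card_compl, Fintype.card_fin, hv] at hinj
        exact_mod_cast (by omega : (univ.filter (fun e : {e : Finset (Fin n) // e.card = r} =>
            v ∈ e.1.powersetCard (r - 1))).card ≤ n - r + 1)
      · have : (univ.filter (fun e : {e : Finset (Fin n) // e.card = r} =>
            v ∈ e.1.powersetCard (r - 1))) = ∅ := by
          rw [filter_eq_empty_iff]
          intro e _ he
          exact hv (mem_powersetCard.1 he).2
        rw [this, card_empty]
        simp only [Nat.cast_zero]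
        positivity)
    (by
      intro u v huv
      rw [sum_const, nsmul_eq_mul]
      have hle : (univ.filter (fun e : {e : Finset (Fin n) // e.card = r} =>
          u ∈ e.1.powersetCard (r - 1) ∧ v ∈ e.1.powersetCard (r - 1))).card ≤ 1 := by
        rw [card_le_one]
        intro e he f hf
        simp only [mem_filter, mem_univ, true_and, mem_powersetCard] at he hf
        obtain ⟨⟨hue, hu⟩, ⟨hve, hv⟩⟩ := he
        obtain ⟨⟨huf, _⟩, ⟨hvf, _⟩⟩ := hf
        have hcard : r ≤ (u ∪ v).card := by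
          have h1 : u ⊂ u ∪ v := by
            refine ⟨subset_union_left, ?_⟩
            intro hsub
            have hvu : v ⊆ u := subset_union_right.trans hsub
            exact huv (eq_of_subset_of_card_le hvu (by omega)).symm
          have := card_lt_card h1
          omega
        have he' : u ∪ v = e.1 := eq_of_subset_of_card_le (union_subset hue hve) (by
          rw [e.2]; exact hcard)
        have hf' : u ∪ v = f.1 := eq_of_subset_of_card_le (union_subset huf hvf) (by
          rw [f.2]; exact hcard)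
        exact Subtype.ext (he'.symm.trans hf')
      have : ((univ.filter (fun e : {e : Finset (Fin n) // e.card = r} =>
          u ∈ e.1.powersetCard (r - 1) ∧ v ∈ e.1.powersetCard (r - 1))).card : ℝ) ≤ 1 := by
        exact_mod_cast hle
      nlinarith)
    (fun _ => hw0κ)
  refine ⟨M.map ⟨Subtype.val, Subtype.val_injective⟩, ?_, ?_, ?_⟩
  · intro e he
    simp only [mem_map, Function.Embedding.coeFn_mk] at he
    obtain ⟨a, _, rfl⟩ := he
    exact a.2
  · intro e he f hf hef
    simp only [mem_map, Function.Embedding.coeFn_mk] at he hf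
    obtain ⟨a, ha, rfl⟩ := he
    obtain ⟨b, hb, rfl⟩ := hf
    exact hM1 a ha b hb (fun h => hef (by rw [h]))
  · rw [card_map]
    have hcard : (Fintype.card {e : Finset (Fin n) // e.card = r}) = n.choose r := by
      rw [Fintype.card_subtype]
      have : (univ.filter (fun e : Finset (Fin n) => e.card = r)) = powersetCard r univ := by
        ext e; simp [mem_powersetCard]
      rw [this, card_powersetCard, card_univ, Fintype.card_fin]
    rw [sum_const, card_univ, hcard, nsmul_eq_mul, hw0] at hM3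
    have hid : n.choose r * r = n.choose (r - 1) * (n - r + 1) := by
      have h := Nat.choose_succ_right_eq n (r - 1)
      have h1 : r - 1 + 1 = r := by omega
      have h2 : n - (r - 1) = n - r + 1 := by omega
      rw [h1, h2] at h
      exact h
    have hid' : (n.choose r : ℝ) * r = n.choose (r - 1) * ((n - r + 1 : ℕ) : ℝ) := by
      exact_mod_cast hid
    have hrpos : (0 : ℝ) ≤ r := by positivity
    have h5 := mul_le_mul_of_nonneg_left hM3 hrpos
    have h6 : (r : ℝ) * ((1 - θ) * ((n.choose r : ℝ) * (1 / ((n - r + 1 : ℕ) : ℝ)))) =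
        (1 - θ) * (n.choose (r - 1) : ℝ) := by
      have : (n.choose r : ℝ) * r / ((n - r + 1 : ℕ) : ℝ) = n.choose (r - 1) := by
        rw [hid']; field_simp
      calc _ = (1 - θ) * ((n.choose r : ℝ) * r / ((n - r + 1 : ℕ) : ℝ)) := by ring
        _ = _ := by rw [this]
    rw [h6] at h5
    exact h5

theorem covering_asym (hN : R128.IT.Nibble) (r : ℕ) (hr : 2 ≤ r) (θ : ℝ) (hθ : 0 < θ) :
    ∃ n0 : ℕ, ∀ n : ℕ, n0 ≤ n → ∃ C : Finset (Finset (Fin n)), IsCovering n r C ∧
      (r : ℝ) * C.card ≤ (1 + r * θ) * (n.choose (r - 1) : ℝ) := by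
  classical
  obtain ⟨n0, h0⟩ := packing hN r hr θ hθ
  refine ⟨max n0 r, ?_⟩
  intro n hn
  obtain ⟨M, hM1, hM2, hM3⟩ := h0 n ((le_max_left _ _).trans hn)
  have hnr : r ≤ n := (le_max_right _ _).trans hn
  set cov := M.biUnion (fun e => e.powersetCard (r - 1)) with hcov
  set U := (powersetCard (r - 1) (univ : Finset (Fin n))) \ cov with hU
  have hcovcard : cov.card = r * M.card := by
    rw [hcov, card_biUnion (fun e he f hf hef => hM2 e he f hf hef)]
    rw [sum_congr rfl (g := fun _ => r) (fun e he => by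
      rw [card_powersetCard, hM1 e he]
      obtain ⟨q, rfl⟩ : ∃ q, r = q + 1 := ⟨r - 1, by omega⟩
      simp)]
    rw [sum_const, smul_eq_mul, mul_comm]
  have hsub : cov ⊆ powersetCard (r - 1) (univ : Finset (Fin n)) := by
    intro R hR
    simp only [hcov, mem_biUnion, mem_powersetCard] at hR
    obtain ⟨e, _, _, h⟩ := hR
    exact mem_powersetCard.2 ⟨subset_univ _, h⟩
  have hUcard : U.card + r * M.card = n.choose (r - 1) := by
    have := card_sdiff_add_card_eq_card hsub
    rw [hcovcard, card_powersetCard, card_univ, Fintype.card_fin] at this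
    exact this
  have hex : ∀ R : Finset (Fin n), ∃ c : Finset (Fin n), R.card = r - 1 → c.card = r ∧ R ⊆ c := by
    intro R
    by_cases hR : R.card = r - 1
    · obtain ⟨c, hc1, hc2⟩ := exists_superset_card_eq (s := R) (n := r) (by omega)
        (by rw [Fintype.card_fin]; exact hnr)
      exact ⟨c, fun _ => ⟨hc2, hc1⟩⟩
    · exact ⟨∅, fun h => absurd h hR⟩
  choose c hc using hex
  refine ⟨M ∪ U.image c, ⟨?_, ?_⟩, ?_⟩
  · intro e he
    rcases mem_union.1 he with he | he
    · exact hM1 e he
    · obtain ⟨R, hR, rfl⟩ := mem_image.1 he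
      have hR' := (mem_powersetCard.1 (mem_sdiff.1 hR).1).2
      exact (hc R hR').1
  · intro R hR
    by_cases hRc : R ∈ cov
    · simp only [hcov, mem_biUnion, mem_powersetCard] at hRc
      obtain ⟨e, he, hRe, _⟩ := hRc
      exact ⟨e, mem_union_left _ he, hRe⟩
    · refine ⟨c R, mem_union_right _ (mem_image_of_mem _ ?_), (hc R hR).2⟩
      exact mem_sdiff.2 ⟨mem_powersetCard.2 ⟨subset_univ _, hR⟩, hRc⟩
  · have h1 : (M ∪ U.image c).card ≤ M.card + U.card :=
      (card_union_le _ _).trans (Nat.add_le_add_left card_image_le _)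
    have h2 : ((M ∪ U.image c).card : ℝ) ≤ M.card + U.card := by exact_mod_cast h1
    have h3 : (U.card : ℝ) + r * M.card = n.choose (r - 1) := by exact_mod_cast hUcard
    have hr1 : (1 : ℝ) ≤ r := by exact_mod_cast (by omega : 1 ≤ r)
    have hU0 : (0 : ℝ) ≤ U.card := by positivity
    have h4 : (U.card : ℝ) ≤ θ * n.choose (r - 1) := by linarith
    have h5 : (r : ℝ) * (M ∪ U.image c).card ≤ r * (M.card + U.card) :=
      mul_le_mul_of_nonneg_left h2 (by linarith)
    nlinarith

theorem exists_IsF (hGR : GR) {r s : ℕ} (hr : 2 ≤ r) (hs : 1 ≤ s) : ∃ m, IsF r s m := by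
  classical
  set T : Set ℕ := {m | ∃ (n : ℕ) (H : Finset (Finset (Fin n))), Uniform r H ∧ PhiLe H s ∧
    H.card = m} with hT
  have hne : T.Nonempty := by
    refine ⟨0, 0, ∅, ?_, ?_, rfl⟩
    · intro e he; exact absurd he (notMem_empty e)
    · intro S hS
      have : S = ∅ := by
        rw [eq_empty_iff_forall_notMem]
        intro v hv
        obtain ⟨e, he, _⟩ := hS v (fun h => h hv)
        exact absurd he (notMem_empty e)
      rw [this, card_empty]; omega
  have hbdd : BddAbove T := by
    refine ⟨(s + r).choose r, ?_⟩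
    rintro m ⟨n, H, hU, hP, rfl⟩
    have h := bound_weak hGR hr hs H hU hP
    have h2 : s * (s + r).choose r ≤ (s + 1) * (s + r).choose r :=
      Nat.mul_le_mul_right _ (by omega)
    exact Nat.le_of_mul_le_mul_left (h.trans h2) (by omega)
  refine ⟨sSup T, Nat.sSup_mem hne hbdd, ?_⟩
  intro n H hU hP
  exact le_csSup hbdd ⟨n, H, hU, hP, rfl⟩

theorem exists_IsCovNum {r s : ℕ} (hr : 1 ≤ r) (hs : 1 ≤ s) : ∃ k, IsCovNum (s + r) r k := by
  classical
  obtain ⟨C, hC, _⟩ := star_proof r s hr hs
  set T : Set ℕ := {k | ∃ C : Finset (Finset (Fin (s + r))), IsCovering (s + r) r C ∧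
    C.card = k} with hT
  have hne : T.Nonempty := ⟨C.card, C, hC, rfl⟩
  exact ⟨sInf T, Nat.sInf_mem hne, fun C' hC' => Nat.sInf_le ⟨C', hC', rfl⟩⟩

/-- Q1 asymptotically for every fixed `r` -/
theorem asym (hN : R128.IT.Nibble) (hGR : GR) (r : ℕ) (hr : 2 ≤ r) (ε : ℝ) (hε : 0 < ε) :
    ∃ s0 : ℕ, ∀ s : ℕ, s0 ≤ s → 1 ≤ s → ∃ m k : ℕ, IsF r s m ∧ IsCovNum (s + r) r k ∧
      (r : ℝ) * ((s + r).choose r - m) ≤ (1 + ε) * (s + r).choose (r - 1) ∧
      ((s + r).choose (r - 1) : ℝ) ≤ r * ((s + r).choose r - m) ∧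
      ((s + r).choose r : ℝ) - m ≤ k ∧
      (k : ℝ) ≤ (1 + ε) * ((s + r).choose r - m) := by
  classical
  have hrpos : (0 : ℝ) < r := by exact_mod_cast (by omega : 0 < r)
  obtain ⟨n0, h0⟩ := covering_asym hN r hr (ε / r) (by positivity)
  refine ⟨n0, ?_⟩
  intro s hs hs1
  obtain ⟨C, hC, hCcard⟩ := h0 (s + r) (by omega)
  obtain ⟨m, hm⟩ := exists_IsF hGR hr hs1
  obtain ⟨k, hk⟩ := exists_IsCovNum (r := r) (s := s) (by omega) hs1
  refine ⟨m, k, hm, hk, ?_⟩
  have hεr : (r : ℝ) * (ε / r) = ε := by field_simp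
  rw [hεr] at hCcard
  -- the covering number is at most the size of C
  have hkC : (k : ℝ) ≤ C.card := by exact_mod_cast hk.2 C hC
  -- lower bound for m
  obtain ⟨Ck, hCk, hCkc⟩ := hk.1
  obtain ⟨H, hU, hP, hHc⟩ := low_proof r s (by omega) hs1 Ck hCk
  have hHm : H.card ≤ m := hm.2 _ H hU hP
  have h1 : ((s + r).choose r : ℝ) - m ≤ k := by
    have : (s + r).choose r ≤ m + k := by omega
    have : ((s + r).choose r : ℝ) ≤ m + k := by exact_mod_cast this
    linarith
  -- upper bound for m
  obtain ⟨⟨n', H', hU', hP', hH'⟩, _⟩ := hm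
  have h2 := bound_weak hGR hr hs1 H' hU' hP'
  rw [hH'] at h2
  have hid := choose_id r s (by omega)
  have h3 : ((s + r).choose (r - 1) : ℝ) ≤ r * ((s + r).choose r - m) := by
    have e1 : ((s : ℝ) + 1) * m ≤ s * (s + r).choose r := by exact_mod_cast h2
    have e2 : ((s + r).choose r : ℝ) * r = (s + r).choose (r - 1) * ((s : ℝ) + 1) := by
      exact_mod_cast hid
    have hs0 : (0 : ℝ) < (s : ℝ) + 1 := by positivity
    have e3 : ((s : ℝ) + 1) * ((s + r).choose (r - 1) : ℝ) ≤
        ((s : ℝ) + 1) * (r * ((s + r).choose r - m)) := by nlinarith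
    exact le_of_mul_le_mul_left e3 hs0
  have h4 : (r : ℝ) * ((s + r).choose r - m) ≤ (1 + ε) * (s + r).choose (r - 1) := by
    have : (r : ℝ) * ((s + r).choose r - m) ≤ r * C.card :=
      mul_le_mul_of_nonneg_left (h1.trans hkC) hrpos.le
    linarith
  refine ⟨h4, h3, h1, ?_⟩
  have h5 : (r : ℝ) * k ≤ (1 + ε) * (r * ((s + r).choose r - m)) := by
    have e1 : (r : ℝ) * k ≤ r * C.card := mul_le_mul_of_nonneg_left hkC hrpos.le
    have e2 : (1 + ε) * ((s + r).choose (r - 1) : ℝ) ≤
        (1 + ε) * (r * ((s + r).choose r - m)) := mul_le_mul_of_nonneg_left h3 (by linarith)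
    linarith
  have h6 : (r : ℝ) * k ≤ r * ((1 + ε) * ((s + r).choose r - m)) := by linarith
  exact le_of_mul_le_mul_left h6 hrpos

end R922.DOMP
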