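import Pool.Agent.R922.DOM.Defs

namespace R922.DOM

open Finset

variable {α : Type} [DecidableEq α]

/-- `e` survives the contraction of `x` -/
def good (H : Finset (Finset α)) (x : α) (e : Finset α) : Prop :=
  x ∈ e ∨ ∀ e' ∈ H, x ∈ e' → ¬ (e'.erase x ⊆ e)

open Classical in
/-- contraction -/
noncomputable def con (H : Finset (Finset α)) (x : α) : Finset (Finset α) :=
  (H.filter (fun e => good H x e)).image (fun e => e.erase x)

open Classical in
/-- the bad vertices of `e` -/
noncomputable def bad (H : Finset (Finset α)) (X : Finset α) (e : Finset α) : Finset α :=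
  X.filter (fun x => ¬ good H x e)

theorem con_key {H : Finset (Finset α)} (hC : Clutter H) {x : α} {e1 e2 : Finset α}
    (h1 : e1 ∈ H) (h2 : e2 ∈ H) (g2 : good H x e2) (h : e1.erase x ⊆ e2.erase x) :
    e1 = e2 := by
  by_cases hx2 : x ∈ e2
  · apply hC e1 h1 e2 h2
    intro v hv
    by_cases hvx : v = x
    · rw [hvx]; exact hx2
    · exact mem_of_mem_erase (h (mem_erase.2 ⟨hvx, hv⟩))
  · rw [erase_eq_of_notMem hx2] at h
    rcases g2 with g2 | g2
    · exact absurd g2 hx2
    · by_cases hx1 : x ∈ e1
      · exact absurd h (g2 e1 h1 hx1)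
      · rw [erase_eq_of_notMem hx1] at h
        exact hC e1 h1 e2 h2 h

theorem con_clutter {H : Finset (Finset α)} (hC : Clutter H) (x : α) : Clutter (con H x) := by
  classical
  intro e he e' he' hsub
  simp only [con, mem_image, mem_filter] at he he'
  obtain ⟨a, ⟨ha, _⟩, rfl⟩ := he
  obtain ⟨b, ⟨hb, gb⟩, rfl⟩ := he'
  rw [con_key hC ha hb gb hsub]

theorem con_phi {H : Finset (Finset α)} {s : ℕ} (hP : Phi H s) (x : α) : Phi (con H x) s := by
  classical
  intro S hS
  apply hP S
  have hx : x ∉ S := by
    intro hx
    obtain ⟨e, he, hes⟩ := hS x hx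
    simp only [con, mem_image, mem_filter] at he
    obtain ⟨a, _, rfl⟩ := he
    have : x ∈ (a.erase x) ∩ S := by rw [hes]; exact mem_singleton_self x
    exact (notMem_erase x a) (mem_inter.1 this).1
  intro v hv
  obtain ⟨e, he, hes⟩ := hS v hv
  simp only [con, mem_image, mem_filter] at he
  obtain ⟨a, ⟨ha, _⟩, rfl⟩ := he
  refine ⟨a, ha, ?_⟩
  rw [← hes]
  ext u
  simp only [mem_inter, mem_erase]
  constructor
  · rintro ⟨h1, h2⟩
    exact ⟨⟨fun h => hx (h ▸ h2), h1⟩, h2⟩
  · rintro ⟨⟨_, h1⟩, h2⟩
    exact ⟨h1, h2⟩

theorem con_ground {H : Finset (Finset α)} {X : Finset α} (hX : ∀ e ∈ H, e ⊆ X) (x : α) :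
    ∀ e ∈ con H x, e ⊆ X.erase x := by
  classical
  intro e he
  simp only [con, mem_image, mem_filter] at he
  obtain ⟨a, ⟨ha, _⟩, rfl⟩ := he
  exact erase_subset_erase x (hX a ha)

theorem con_sum {H : Finset (Finset α)} (hC : Clutter H) (x : α) (f : ℕ → ℚ) :
    ∑ e ∈ con H x, f e.card =
      ∑ e ∈ H, (open Classical in if good H x e then f (e.erase x).card else 0) := by
  classical
  rw [con, sum_image, sum_filter]
  intro a ha b hb hab
  have ha' := mem_filter.1 ha
  have hb' := mem_filter.1 hb
  exact con_key hC ha'.1 hb'.1 hb'.2 (le_of_eq hab)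

/-- no edge is empty or a singleton -/
def Big (H : Finset (Finset α)) : Prop := ∀ e ∈ H, 2 ≤ e.card

theorem con_ne {H : Finset (Finset α)} (hB : Big H) (x : α) : ∅ ∉ con H x := by
  classical
  intro h
  simp only [con, mem_image, mem_filter] at h
  obtain ⟨a, ⟨ha, _⟩, h0⟩ := h
  have h1 := hB a ha
  have h2 : a.card - 1 ≤ (a.erase x).card := pred_card_le_card_erase
  rw [h0, card_empty] at h2
  omega

theorem con_sing {H : Finset (Finset α)} {X : Finset α} (hX : ∀ e ∈ H, e ⊆ X) (hB : Big H)
    (x : α) : ((con H x).filter (fun e => e.card = 1)).card = (nb H X x).card := by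
  classical
  have : (con H x).filter (fun e => e.card = 1) = (nb H X x).image (fun y => {y}) := by
    ext e
    simp only [con, mem_image, mem_filter, nb]
    constructor
    · rintro ⟨⟨a, ⟨ha, _⟩, rfl⟩, h1⟩
      obtain ⟨y, hy⟩ := card_eq_one.1 h1
      have h2 := hB a ha
      have hxa : x ∈ a := by
        by_contra hxa
        rw [erase_eq_of_notMem hxa] at h1
        omega
      have hya : y ∈ a.erase x := by rw [hy]; exact mem_singleton_self y
      have haxy : a = {x, y} := by
        rw [← insert_erase hxa, hy]
      refine ⟨y, ⟨hX a ha (mem_of_mem_erase hya), ne_of_mem_erase hya, ?_⟩, hy.symm⟩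
      rw [← haxy]; exact ha
    · rintro ⟨y, ⟨hyX, hyx, hxy⟩, rfl⟩
      refine ⟨⟨{x, y}, ⟨hxy, Or.inl (mem_insert_self x _)⟩, ?_⟩, card_singleton y⟩
      ext u
      simp only [mem_erase, mem_insert, mem_singleton]
      constructor
      · rintro ⟨h1, h2 | h2⟩
        · exact absurd h2 h1
        · exact h2
      · rintro rfl
        exact ⟨hyx, Or.inr rfl⟩
  rw [this, card_image_of_injective _ (fun a b h => singleton_injective h)]

theorem bad_card {H : Finset (Finset α)} {X : Finset α} {s : ℕ} (hP : Phi H s) (e : Finset α) :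
    (bad H X e).card ≤ s := by
  classical
  apply hP
  intro v hv
  have hv' := (mem_filter.1 hv).2
  unfold good at hv'
  push Not at hv'
  obtain ⟨hve, e', he', hve', hsub⟩ := hv'
  refine ⟨e', he', ?_⟩
  ext u
  simp only [mem_inter, mem_singleton]
  constructor
  · rintro ⟨h1, h2⟩
    by_contra huv
    have h3 := hsub (mem_erase.2 ⟨huv, h1⟩)
    exact (mem_filter.1 h2).2 (Or.inl h3)
  · rintro rfl
    exact ⟨hve', hv⟩

theorem bad_two {H : Finset (Finset α)} {X : Finset α} (hX : ∀ e ∈ H, e ⊆ X) (hB : Big H)
    (hC : Clutter H) {x y : α} (hxy : ({x, y} : Finset α) ∈ H) :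
    bad H X {x, y} = (nb H X x ∪ nb H X y) \ {x, y} := by
  classical
  have hxX : x ∈ X := hX _ hxy (mem_insert_self x _)
  ext z
  simp only [bad, mem_filter, mem_sdiff, mem_union, nb]
  constructor
  · rintro ⟨hzX, hz⟩
    unfold good at hz
    push Not at hz
    obtain ⟨hze, e', he', hze', hsub⟩ := hz
    refine ⟨?_, hze⟩
    have hz1 : z ≠ x := fun h => hze (by rw [h]; exact mem_insert_self x _)
    have hz2 : z ≠ y := fun h => hze (by rw [h]; exact mem_insert_of_mem (mem_singleton_self y))
    by_cases hx : x ∈ e'
    · by_cases hy : y ∈ e'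
      · exfalso
        have : ({x, y} : Finset α) = e' := by
          apply hC _ hxy _ he'
          intro u hu
          simp only [mem_insert, mem_singleton] at hu
          rcases hu with rfl | rfl
          · exact hx
          · exact hy
        rw [this] at hze
        exact hze hze'
      · left
        refine ⟨hzX, hz1, ?_⟩
        have : ({x, z} : Finset α) = e' := by
          ext u
          simp only [mem_insert, mem_singleton]
          constructor
          · rintro (rfl | rfl)
            · exact hx
            · exact hze'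
          · intro hu
            by_cases huz : u = z
            · exact Or.inr huz
            · have := hsub (mem_erase.2 ⟨huz, hu⟩)
              simp only [mem_insert, mem_singleton] at this
              rcases this with h | h
              · exact Or.inl h
              · exact absurd (h ▸ hu) hy
        rw [this]; exact he'
    · right
      refine ⟨hzX, hz2, ?_⟩
      have h2 := hB e' he'
      have hsub' : e' ⊆ {y, z} := by
        intro u hu
        simp only [mem_insert, mem_singleton]
        by_cases huz : u = z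
        · exact Or.inr huz
        · have := hsub (mem_erase.2 ⟨huz, hu⟩)
          simp only [mem_insert, mem_singleton] at this
          rcases this with h | h
          · exact absurd (h ▸ hu) hx
          · exact Or.inl h
      have h3 : ({y, z} : Finset α).card ≤ 2 := card_le_two
      have : e' = {y, z} := eq_of_subset_of_card_le hsub' (by omega)
      rw [← this]; exact he'
  · rintro ⟨h | h, hz⟩
    · obtain ⟨hzX, hzx, hH⟩ := h
      refine ⟨hzX, ?_⟩
      unfold good
      push Not
      refine ⟨hz, {x, z}, hH, mem_insert_of_mem (mem_singleton_self z), ?_⟩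
      intro u hu
      simp only [mem_erase, mem_insert, mem_singleton] at hu ⊢
      rcases hu with ⟨h1, h2 | h2⟩
      · exact Or.inl h2
      · exact absurd h2 h1
    · obtain ⟨hzX, hzx, hH⟩ := h
      refine ⟨hzX, ?_⟩
      unfold good
      push Not
      refine ⟨hz, {y, z}, hH, mem_insert_of_mem (mem_singleton_self z), ?_⟩
      intro u hu
      simp only [mem_erase, mem_insert, mem_singleton] at hu ⊢
      rcases hu with ⟨h1, h2 | h2⟩
      · exact Or.inr h2
      · exact absurd h2 h1

theorem nb_card {H : Finset (Finset α)} {X : Finset α} {s : ℕ} (hP : Phi H s) (x : α) :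
    (nb H X x).card ≤ s := by
  classical
  apply hP
  intro v hv
  have hv' := mem_filter.1 hv
  refine ⟨{x, v}, hv'.2.2, ?_⟩
  ext u
  simp only [mem_inter, mem_insert, mem_singleton]
  constructor
  · rintro ⟨rfl | h1, h2⟩
    · exact absurd rfl (mem_filter.1 h2).2.1
    · exact h1
  · rintro rfl
    exact ⟨Or.inr rfl, hv⟩

theorem nb_symm {H : Finset (Finset α)} {X : Finset α} {x y : α} (hx : x ∈ X) (hy : y ∈ X) :
    y ∈ nb H X x ↔ x ∈ nb H X y := by
  simp only [nb, mem_filter]
  rw [pair_comm x y]
  constructor
  · rintro ⟨_, h, h'⟩; exact ⟨hx, h.symm, h'⟩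
  · rintro ⟨_, h, h'⟩; exact ⟨hy, h.symm, h'⟩

/-- contributions of one edge -/
theorem contrib {H : Finset (Finset α)} {X : Finset α} (hX : ∀ e ∈ H, e ⊆ X)
    {e : Finset α} (he : e ∈ H) (f : ℕ → ℚ) :
    ∑ x ∈ X, (open Classical in if good H x e then f (e.erase x).card else 0) =
      (e.card : ℚ) * f (e.card - 1) + ((X.card : ℚ) - e.card - (bad H X e).card) * f e.card := by
  classical
  have hsplit : X = e ∪ (X \ e) := (union_sdiff_of_subset (hX e he)).symm
  have hdisj : Disjoint e (X \ e) := disjoint_sdiff
  have h0 : ∑ x ∈ X, (if good H x e then f (e.erase x).card else 0) =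
      ∑ x ∈ e ∪ (X \ e), (if good H x e then f (e.erase x).card else 0) := by
    rw [← hsplit]
  rw [h0, sum_union hdisj]
  have h1 : ∑ x ∈ e, (if good H x e then f (e.erase x).card else 0) =
      (e.card : ℚ) * f (e.card - 1) := by
    rw [← nsmul_eq_mul, ← sum_const]
    apply sum_congr rfl
    intro x hx
    have hg : good H x e := Or.inl hx
    rw [if_pos hg, card_erase_of_mem hx]
  have h2 : ∑ x ∈ X \ e, (if good H x e then f (e.erase x).card else 0) =
      (((X \ e).filter (fun x => good H x e)).card : ℚ) * f e.card := by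
    rw [← nsmul_eq_mul, ← sum_const, sum_filter]
    apply sum_congr rfl
    intro x hx
    rw [erase_eq_of_notMem (mem_sdiff.1 hx).2]
  have h3 : (bad H X e) = (X \ e).filter (fun x => ¬ good H x e) := by
    ext x
    simp only [bad, mem_filter, mem_sdiff]
    constructor
    · rintro ⟨h1, h2⟩
      exact ⟨⟨h1, fun h => h2 (Or.inl h)⟩, h2⟩
    · rintro ⟨⟨h1, _⟩, h2⟩
      exact ⟨h1, h2⟩
  have h4 := card_filter_add_card_filter_not (s := X \ e) (fun x => good H x e)
  rw [← h3] at h4
  have h5 : (X \ e).card + e.card = X.card := card_sdiff_add_card_eq_card (hX e he)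
  have h6 : (((X \ e).filter (fun x => good H x e)).card : ℚ) =
      (X.card : ℚ) - e.card - (bad H X e).card := by
    have : (((X \ e).filter (fun x => good H x e)).card : ℚ) + (bad H X e).card + e.card =
        X.card := by
      exact_mod_cast (by omega :
        ((X \ e).filter (fun x => good H x e)).card + (bad H X e).card + e.card = X.card)
    linarith
  rw [h1, h2, h6]

/-- sum over the two-element edges as a sum over ordered pairs -/
theorem sum_two {H : Finset (Finset α)} {X : Finset α} (hX : ∀ e ∈ H, e ⊆ X)
    (g : Finset α → ℚ) :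
    ∑ x ∈ X, ∑ y ∈ nb H X x, g {x, y} = 2 * ∑ e ∈ H.filter (fun e => e.card = 2), g e := by
  classical
  have h1 : ∀ x ∈ X, ∑ y ∈ nb H X x, g {x, y} =
      ∑ e ∈ H.filter (fun e => e.card = 2), if x ∈ e then g e else 0 := by
    intro x hx
    rw [← sum_filter]
    have : (H.filter (fun e => e.card = 2)).filter (fun e => x ∈ e) =
        (nb H X x).image (fun y => ({x, y} : Finset α)) := by
      ext e
      simp only [mem_filter, mem_image, nb]
      constructor
      · rintro ⟨⟨he, h2⟩, hxe⟩
        have h3 : (e.erase x).card = 1 := by rw [card_erase_of_mem hxe]; omega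
        obtain ⟨y, hy⟩ := card_eq_one.1 h3
        have hya : y ∈ e.erase x := by rw [hy]; exact mem_singleton_self y
        have haxy : e = {x, y} := by
          rw [← insert_erase hxe, hy]
        exact ⟨y, ⟨hX e he (mem_of_mem_erase hya), ne_of_mem_erase hya, haxy ▸ he⟩, haxy.symm⟩
      · rintro ⟨y, ⟨_, hyx, hH⟩, rfl⟩
        exact ⟨⟨hH, card_pair hyx.symm⟩, mem_insert_self x _⟩
    rw [this, sum_image]
    intro a ha b hb hab
    have ha' := (mem_filter.1 (mem_coe.1 ha)).2.1
    have : a ∈ ({x, b} : Finset α) := by
      have h := hab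
      simp only at h
      rw [← h]; exact mem_insert_of_mem (mem_singleton_self a)
    simp only [mem_insert, mem_singleton] at this
    rcases this with h | h
    · exact absurd h ha'
    · exact h
  rw [sum_congr rfl h1, sum_comm, mul_sum]
  apply sum_congr rfl
  intro e he
  have he' := mem_filter.1 he
  rw [← sum_filter]
  have : X.filter (fun x => x ∈ e) = e := by
    ext u
    simp only [mem_filter]
    exact ⟨fun h => h.2, fun h => ⟨hX e he'.1 h, h⟩⟩
  rw [this, sum_const, he'.2, nsmul_eq_mul]
  norm_num

end R922.DOM
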