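import Mathlib
import Pool.Agent.R922.DOM.Defs
import Pool.Agent.R922.DOM.W

/-!
Piece GR of project DOM: a graph inequality.
-/

namespace R922.DOM

open Finset

/-- The number of ordered adjacent pairs inside a set is even. -/
lemma even_sum_inter {α : Type} [DecidableEq α] (U : Finset α) (n : α → Finset α)
    (hirr : ∀ y ∈ U, y ∉ n y) (hsym : ∀ y ∈ U, ∀ z ∈ U, z ∈ n y → y ∈ n z) :
    Even (∑ y ∈ U, (n y ∩ U).card) := by
  have h1 : ∑ y ∈ U, (n y ∩ U).card = (U.sigma (fun y => n y ∩ U)).card := by
    rw [Finset.card_sigma]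
  rw [h1, ← ZMod.natCast_eq_zero_iff_even]
  have h2 : (((U.sigma (fun y => n y ∩ U)).card : ℕ) : ZMod 2) =
      ∑ _p ∈ U.sigma (fun y => n y ∩ U), (1 : ZMod 2) := by simp
  rw [h2]
  refine Finset.sum_involution (fun p _ => ⟨p.2, p.1⟩) ?_ ?_ ?_ ?_
  · intro p _
    decide
  · rintro ⟨y, z⟩ hp _ heq
    rw [Finset.mem_sigma, Finset.mem_inter] at hp
    simp only [Sigma.mk.injEq, heq_eq_eq] at heq
    have h3 : z ∈ n y := hp.2.1
    rw [heq.1] at h3
    exact hirr y hp.1 h3
  · rintro ⟨y, z⟩ hp
    rw [Finset.mem_sigma, Finset.mem_inter] at hp ⊢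
    exact ⟨hp.2.2, hsym y hp.1 z hp.2.2 hp.2.1, hp.1⟩
  · rintro ⟨y, z⟩ hp
    rfl

lemma gr_even (s : ℕ) (hs : s % 2 = 0) : Q s = s * (s + 2) := by
  have h1 := Q_add_mod s
  omega

/-- every saturated vertex has a neighbour of degree less than `s` -/
lemma gr_claim {α : Type} [DecidableEq α] (X : Finset α) (n : α → Finset α) (s : ℕ)
    (hs : 1 ≤ s) (hodd : s % 2 = 1) (hX : ∀ x ∈ X, n x ⊆ X) (hirr : ∀ x ∈ X, x ∉ n x)
    (hsym : ∀ x ∈ X, ∀ y ∈ X, y ∈ n x ↔ x ∈ n y) (hdeg : ∀ x ∈ X, (n x).card ≤ s)
    (x : α) (hx : x ∈ X) (hd : (n x).card = s)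
    (hm : ∀ y ∈ n x, ((n x ∪ n y) \ {x, y}).card = s) :
    ∃ y ∈ n x, (n y).card < s := by
  by_contra hcon
  push Not at hcon
  have hds : ∀ y ∈ n x, (n y).card = s := fun y hy =>
    le_antisymm (hdeg y (hX x hx hy)) (hcon y hy)
  have hkey : ∀ y ∈ n x, (n y ∩ n x).card + 2 = s := by
    intro y hy
    have hyX : y ∈ X := hX x hx hy
    have hxy : x ∈ n y := (hsym x hx y hyX).1 hy
    have h1 : (n x ∪ n y) \ {x, y} = (n x).erase y ∪ (n y \ n x).erase x := by
      ext z
      simp only [Finset.mem_sdiff, Finset.mem_union, Finset.mem_insert, Finset.mem_singleton,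
        Finset.mem_erase]
      constructor
      · rintro ⟨hz, hz2⟩
        push Not at hz2
        by_cases hzx : z ∈ n x
        · exact Or.inl ⟨hz2.2, hzx⟩
        · rcases hz with hz | hz
          · exact absurd hz hzx
          · exact Or.inr ⟨hz2.1, hz, hzx⟩
      · rintro (⟨hz1, hz2⟩ | ⟨hz1, hz2, hz3⟩)
        · refine ⟨Or.inl hz2, ?_⟩
          push Not
          exact ⟨fun h => hirr x hx (h ▸ hz2), hz1⟩
        · refine ⟨Or.inr hz2, ?_⟩
          push Not
          exact ⟨hz1, fun h => hirr y hyX (h ▸ hz2)⟩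
    have h2 : Disjoint ((n x).erase y) ((n y \ n x).erase x) := by
      rw [Finset.disjoint_left]
      intro z hz1 hz2
      exact (Finset.mem_sdiff.1 (Finset.mem_of_mem_erase hz2)).2 (Finset.mem_of_mem_erase hz1)
    have h3 := hm y hy
    rw [h1, Finset.card_union_of_disjoint h2, Finset.card_erase_of_mem hy,
      Finset.card_erase_of_mem (Finset.mem_sdiff.2 ⟨hxy, hirr x hx⟩), hd] at h3
    have h4 : 0 < (n y \ n x).card :=
      Finset.card_pos.2 ⟨x, Finset.mem_sdiff.2 ⟨hxy, hirr x hx⟩⟩
    have h5 := Finset.card_sdiff_add_card_inter (n y) (n x)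
    rw [hds y hy] at h5
    omega
  have hev := even_sum_inter (n x) n (fun y hy => hirr y (hX x hx hy))
    (fun y hy z hz h => (hsym y (hX x hx hy) z (hX x hx hz)).1 h)
  have hsum : ∑ y ∈ n x, (n y ∩ n x).card = s * (s - 2) := by
    rw [Finset.sum_congr rfl (fun y hy => (by have := hkey y hy; omega :
      (n y ∩ n x).card = s - 2)), Finset.sum_const, hd, smul_eq_mul]
  have hne : (n x).Nonempty := Finset.card_pos.1 (by omega)
  obtain ⟨y, hy⟩ := hne
  have h6 := hkey y hy
  rw [hsum, Nat.even_mul] at hev
  rcases hev with h | h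
  · rw [Nat.even_iff] at h; omega
  · rw [Nat.even_iff] at h; omega

theorem gr_proof : GR := by
  intro α _ X n s hs hX hirr hsym hdeg hmle
  have hQ0 := Q_add_mod s
  rcases Nat.mod_two_eq_zero_or_one s with hpar | hodd
  · -- even case
    have hQ : (Q s : ℤ) = s * (s + 2) := by
      have := gr_even s hpar
      exact_mod_cast this
    have h1 : ∑ x ∈ X, ∑ y ∈ n x, ((s : ℤ) * ((((n x ∪ n y) \ {x, y}).card : ℤ) + 2) - Q s) ≤ 0 := by
      refine Finset.sum_nonpos (fun x hx => Finset.sum_nonpos (fun y hy => ?_))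
      have h2 : ((((n x ∪ n y) \ {x, y}).card : ℕ) : ℤ) ≤ s := by exact_mod_cast hmle x hx y hy
      rw [hQ]
      have h3 : (0 : ℤ) ≤ (s : ℤ) := by positivity
      nlinarith
    have h4 : 0 ≤ ∑ x ∈ X, ((s : ℤ) * Q s - (n x).card * Q s - s * Q (s - (n x).card)) := by
      refine Finset.sum_nonneg (fun x hx => ?_)
      have h5 := qin_nat s (n x).card hs (hdeg x hx)
      have h6 : (((n x).card : ℤ)) * Q s + s * Q (s - (n x).card) ≤ s * Q s := by exact_mod_cast h5
      linarith
    linarith
  · -- odd case
    classical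
    have hQ : (Q s : ℤ) = s * (s + 2) - 1 := by
      have h1 : Q s + 1 = s * (s + 2) := by omega
      have h2 : (Q s : ℤ) + 1 = s * (s + 2) := by exact_mod_cast h1
      linarith
    set B : Finset α := X.filter (fun x => 1 ≤ (n x).card ∧ (n x).card < s) with hB
    set T : Finset α := X.filter (fun x => (n x).card = s ∧
      ∀ y ∈ n x, ((n x ∪ n y) \ {x, y}).card = s) with hT
    have hs0 : (1 : ℤ) ≤ (s : ℤ) := by exact_mod_cast hs
    -- the terms
    have hterm : ∀ x ∈ X, ∀ y ∈ n x,
        (s : ℤ) * ((((n x ∪ n y) \ {x, y}).card : ℤ) + 2) - Q s ≤ 1 := by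
      intro x hx y hy
      have h2 : ((((n x ∪ n y) \ {x, y}).card : ℕ) : ℤ) ≤ s := by exact_mod_cast hmle x hx y hy
      rw [hQ]
      nlinarith
    have hpt : ∀ x ∈ X, ∑ y ∈ n x, ((s : ℤ) * ((((n x ∪ n y) \ {x, y}).card : ℤ) + 2) - Q s) ≤
        ((s : ℤ) * Q s - (n x).card * Q s - s * Q (s - (n x).card)) +
        ((if x ∈ T then (s : ℤ) else 0) - (if x ∈ B then (s : ℤ) * (n x).card else 0)) := by
      intro x hx
      have hC : ∑ y ∈ n x, ((s : ℤ) * ((((n x ∪ n y) \ {x, y}).card : ℤ) + 2) - Q s) ≤
          (n x).card := by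
        refine le_trans (Finset.sum_le_sum (fun y hy => hterm x hx y hy)) ?_
        simp
      have hdx := hdeg x hx
      rcases Nat.eq_zero_or_pos (n x).card with h0 | h0
      · -- degree zero
        have hTx : x ∉ T := by
          intro h
          have := (Finset.mem_filter.1 h).2.1
          omega
        have hBx : x ∉ B := by
          intro h
          have := (Finset.mem_filter.1 h).2.1
          omega
        rw [if_neg hTx, if_neg hBx]
        rw [h0] at hC
        rw [h0, Nat.sub_zero]
        push_cast at hC ⊢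
        linarith
      · rcases Nat.lt_or_ge (n x).card s with h1 | h1
        · -- intermediate degree
          have hTx : x ∉ T := by
            intro h
            have := (Finset.mem_filter.1 h).2.1
            omega
          have hBx : x ∈ B := Finset.mem_filter.2 ⟨hx, h0, h1⟩
          rw [if_neg hTx, if_pos hBx]
          obtain ⟨t, ht⟩ : ∃ t, s = (n x).card + t := ⟨s - (n x).card, by omega⟩
          have ht2 : s - (n x).card = t := by omega
          rw [ht2]
          have hQt0 := Q_add_mod t
          set d := (n x).card with hd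
          have hst : (s : ℤ) = d + t := by exact_mod_cast ht
          have hd1 : (1 : ℤ) ≤ (d : ℤ) := by exact_mod_cast h0
          have ht1 : 1 ≤ t := by omega
          have ht1' : (1 : ℤ) ≤ (t : ℤ) := by exact_mod_cast ht1
          rw [hQ]
          rcases Nat.eq_or_lt_of_le ht1 with h2 | h2
          · -- t = 1
            have hQt : Q t = 2 := by rw [← h2]; rfl
            rw [hQt]
            have h3 : (t : ℤ) = 1 := by exact_mod_cast h2.symm
            rw [h3] at hst
            push_cast
            rw [hst]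
            have h4 : ((d : ℤ) + 1) * (((d : ℤ) + 1) * ((d : ℤ) + 1 + 2) - 1) -
                (d : ℤ) * (((d : ℤ) + 1) * ((d : ℤ) + 1 + 2) - 1) - ((d : ℤ) + 1) * 2 -
                ((d : ℤ) + 1) * d = d := by ring
            rw [hst] at hC
            rw [hQ, hst] at hC
            linarith
          · -- t ≥ 2
            have hQt : (Q t : ℤ) ≤ t * (t + 2) := by
              have h3 : Q t ≤ t * (t + 2) := by omega
              exact_mod_cast h3
            have h2' : (2 : ℤ) ≤ (t : ℤ) := by exact_mod_cast h2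
            rw [hQ] at hC
            have h5 : (s : ℤ) * Q t ≤ s * (t * (t + 2)) :=
              mul_le_mul_of_nonneg_left hQt (by positivity)
            have h6 : (s : ℤ) * (s * (s + 2) - 1) - d * (s * (s + 2) - 1) - s * (t * (t + 2)) =
                t * (s * d - 1) := by
              rw [hst]; ring
            have h7 : (2 : ℤ) * (s * d - 1) ≤ t * (s * d - 1) := by
              have h8 : (0 : ℤ) ≤ s * d - 1 := by nlinarith
              exact mul_le_mul_of_nonneg_right h2' h8
            have h9 : (d : ℤ) + 2 ≤ s * d := by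
              rw [hst]
              nlinarith
            linarith
        · -- full degree
          have h2 : (n x).card = s := le_antisymm hdx h1
          have hBx : x ∉ B := by
            intro h
            have := (Finset.mem_filter.1 h).2.2
            omega
          rw [if_neg hBx]
          have hG : ((s : ℤ) * Q s - (n x).card * Q s - s * Q (s - (n x).card)) = 0 := by
            rw [h2, Nat.sub_self]
            have : Q 0 = 0 := rfl
            rw [this]
            push_cast
            ring
          rw [hG]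
          by_cases hTx : x ∈ T
          · rw [if_pos hTx]
            rw [h2] at hC
            linarith
          · rw [if_neg hTx]
            have h3 : ∃ y ∈ n x, ((n x ∪ n y) \ {x, y}).card ≠ s := by
              by_contra hcon
              push Not at hcon
              exact hTx (Finset.mem_filter.2 ⟨hx, h2, hcon⟩)
            obtain ⟨y0, hy0, hy0s⟩ := h3
            have h4 : ((n x ∪ n y0) \ {x, y0}).card + 1 ≤ s := by
              have := hmle x hx y0 hy0
              omega
            have h4' : ((((n x ∪ n y0) \ {x, y0}).card : ℕ) : ℤ) + 1 ≤ s := by exact_mod_cast h4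
            rw [← Finset.add_sum_erase _ _ hy0]
            have h5 : ∑ y ∈ (n x).erase y0,
                ((s : ℤ) * ((((n x ∪ n y) \ {x, y}).card : ℤ) + 2) - Q s) ≤ s - 1 := by
              refine le_trans (Finset.sum_le_sum (fun y hy =>
                hterm x hx y (Finset.mem_of_mem_erase hy))) ?_
              rw [Finset.sum_const, Finset.card_erase_of_mem hy0, h2]
              simp only [smul_eq_mul, nsmul_eq_mul, mul_one]
              rw [Nat.cast_sub hs]
              simp
            have h6 : (s : ℤ) * ((((n x ∪ n y0) \ {x, y0}).card : ℤ) + 2) - Q s ≤ 1 - s := by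
              rw [hQ]
              nlinarith
            linarith
    -- counting
    have hTB : T.card ≤ ∑ y ∈ B, (n y).card := by
      have h1 : T ⊆ B.biUnion n := by
        intro x hxT
        rw [hT, Finset.mem_filter] at hxT
        obtain ⟨hx, h2, h3⟩ := hxT
        obtain ⟨y, hy, hys⟩ := gr_claim X n s hs hodd hX hirr hsym hdeg x hx h2 h3
        have hyX := hX x hx hy
        have hxy : x ∈ n y := (hsym x hx y hyX).1 hy
        rw [Finset.mem_biUnion]
        exact ⟨y, Finset.mem_filter.2 ⟨hyX, Finset.card_pos.2 ⟨x, hxy⟩, hys⟩, hxy⟩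
      exact le_trans (Finset.card_le_card h1) Finset.card_biUnion_le
    have hTsum : ∑ x ∈ X, (if x ∈ T then (s : ℤ) else 0) = s * T.card := by
      rw [← Finset.sum_filter]
      have h1 : X.filter (fun x => x ∈ T) = T := by
        ext z
        rw [Finset.mem_filter]
        exact ⟨fun h => h.2, fun h => ⟨(Finset.mem_filter.1 h).1, h⟩⟩
      rw [h1, Finset.sum_const, nsmul_eq_mul, mul_comm]
    have hBsum : ∑ x ∈ X, (if x ∈ B then (s : ℤ) * (n x).card else 0) =
        s * ∑ y ∈ B, ((n y).card : ℤ) := by
      rw [← Finset.sum_filter]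
      have h1 : X.filter (fun x => x ∈ B) = B := by
        ext z
        rw [Finset.mem_filter]
        exact ⟨fun h => h.2, fun h => ⟨(Finset.mem_filter.1 h).1, h⟩⟩
      rw [h1, Finset.mul_sum]
    refine le_trans (Finset.sum_le_sum hpt) ?_
    rw [Finset.sum_add_distrib, Finset.sum_sub_distrib (f := fun x => if x ∈ T then (s : ℤ) else 0),
      hTsum, hBsum]
    have hTB' : (T.card : ℤ) ≤ ∑ y ∈ B, ((n y).card : ℤ) := by exact_mod_cast hTB
    have h7 : (s : ℤ) * T.card ≤ s * ∑ y ∈ B, ((n y).card : ℤ) :=
      mul_le_mul_of_nonneg_left hTB' (by positivity)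
    linarith

end R922.DOM
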