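import Mathlib

/-!
Problem definitions for MP_9be8d1_co and statements of the lower-bound pieces (helper922).
-/

namespace R922.DOMP

open Finset

/-- all edges have `r` elements -/
def Uniform {V : Type} (r : ℕ) (H : Finset (Finset V)) : Prop := ∀ e ∈ H, e.card = r

/-- `D` is dominating: every vertex `v` outside `D` is in an edge `e` with `e \ {v} ⊆ D` -/
def Dominating {V : Type} (H : Finset (Finset V)) (D : Set V) : Prop :=
  ∀ v, v ∉ D → ∃ e ∈ H, v ∈ e ∧ ∀ u ∈ e, u ≠ v → u ∈ D

/-- `S` is dominated: its complement is dominating -/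
def Dominated {V : Type} (H : Finset (Finset V)) (S : Finset V) : Prop :=
  Dominating H {v | v ∉ S}

/-- the dominated number is at most `s` -/
def PhiLe {V : Type} (H : Finset (Finset V)) (s : ℕ) : Prop :=
  ∀ S : Finset V, Dominated H S → S.card ≤ s

/-- `m` is the maximum size `f_r(s)` of an `r`-uniform hypergraph with dominated number at
most `s` -/
def IsF (r s m : ℕ) : Prop :=
  (∃ (n : ℕ) (H : Finset (Finset (Fin n))), Uniform r H ∧ PhiLe H s ∧ H.card = m) ∧
  (∀ (n : ℕ) (H : Finset (Finset (Fin n))), Uniform r H → PhiLe H s → H.card ≤ m)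

/-- `C` is a family of `r`-subsets of an `n`-set covering every `(r-1)`-subset -/
def IsCovering (n r : ℕ) (C : Finset (Finset (Fin n))) : Prop :=
  (∀ c ∈ C, c.card = r) ∧ ∀ R : Finset (Fin n), R.card = r - 1 → ∃ c ∈ C, R ⊆ c

/-- `k` is the covering number `C(n, r, r-1)` -/
def IsCovNum (n r k : ℕ) : Prop :=
  (∃ C : Finset (Finset (Fin n)), IsCovering n r C ∧ C.card = k) ∧
  (∀ C : Finset (Finset (Fin n)), IsCovering n r C → k ≤ C.card)

/-- `C` is a Steiner system `S(n, r, r-1)` -/
def IsSteiner (n r : ℕ) (C : Finset (Finset (Fin n))) : Prop :=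
  (∀ c ∈ C, c.card = r) ∧
    ∀ R : Finset (Fin n), R.card = r - 1 → ∃! c : Finset (Fin n), c ∈ C ∧ R ⊆ c

/-- piece LOW: the complement of a covering has dominated number at most `s` -/
def LOW : Prop := ∀ r s : ℕ, 1 ≤ r → 1 ≤ s → ∀ C : Finset (Finset (Fin (s + r))),
  IsCovering (s + r) r C → ∃ H : Finset (Finset (Fin (s + r))),
    Uniform r H ∧ PhiLe H s ∧ H.card + C.card = (s + r).choose r

/-- piece STC: a Steiner system is a covering and its size is `choose n (r-1) / r` -/
def STC : Prop := ∀ (n r : ℕ) (C : Finset (Finset (Fin n))), 1 ≤ r → IsSteiner n r C →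
  IsCovering n r C ∧ r * C.card = n.choose (r - 1)

/-- piece STAR: the `r`-sets through a point form a covering -/
def STAR : Prop := ∀ r s : ℕ, 1 ≤ r → 1 ≤ s → ∃ C : Finset (Finset (Fin (s + r))),
  IsCovering (s + r) r C ∧ C.card = (s + r - 1).choose (r - 1)

end R922.DOMP
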