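import Pool.Agent.R922.DOM.Contr
import Pool.Agent.R922.DOM.PDefs

namespace R922.DOM

open Finset

variable {α : Type} [DecidableEq α]

theorem lQ_pos {s : ℕ} (hs : 1 ≤ s) : 0 < Q s := by
  have h : 2 ≤ s * (s + 2) := by nlinarith
  have : 1 ≤ s * (s + 2) / 2 := by omega
  unfold Q
  omega

theorem lQ_zero : Q 0 = 0 := by unfold Q; norm_num

theorem lw_one (s : ℕ) : w s 1 = 1 / (s : ℚ) := by
  unfold w; norm_num

theorem core_step (hREC : WREC) (hGR : GR) {X : Finset α} {H : Finset (Finset α)} {s : ℕ}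
    (hs : 1 ≤ s) (hX : ∀ e ∈ H, e ⊆ X) (hC : Clutter H) (hB : Big H) (hP : Phi H s)
    (hN : X.Nonempty)
    (IH : ∀ x ∈ X, ∑ e ∈ con H x, w s e.card ≤
      ((nb H X x).card : ℚ) / s + (Q (s - (nb H X x).card) : ℚ) / Q s) :
    ∑ e ∈ H, w s e.card ≤ 1 := by
  classical
  obtain ⟨hrec, hw2, hw0⟩ := hREC
  have hQ : (0 : ℚ) < Q s := by exact_mod_cast lQ_pos hs
  have hsq : (0 : ℚ) < s := by exact_mod_cast hs
  have h1 : ∑ x ∈ X, ∑ e ∈ con H x, w s e.card =
      ∑ e ∈ H, ((e.card : ℚ) * w s (e.card - 1) +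
        ((X.card : ℚ) - e.card - (bad H X e).card) * w s e.card) := by
    rw [sum_congr rfl (fun x _ => con_sum hC x (w s)), sum_comm]
    exact sum_congr rfl (fun e he => contrib hX he (w s))
  have h2 : ∀ e ∈ H, (X.card : ℚ) * w s e.card ≤
      ((e.card : ℚ) * w s (e.card - 1) +
        ((X.card : ℚ) - e.card - (bad H X e).card) * w s e.card) +
      (if e.card = 2 then (2 + ((bad H X e).card : ℚ)) * w s 2 - 2 * w s 1 else 0) := by
    intro e he
    have hb : ((bad H X e).card : ℚ) ≤ s := by exact_mod_cast bad_card hP e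
    by_cases h : e.card = 2
    · rw [if_pos h, h]
      push_cast
      norm_num
      linarith
    · rw [if_neg h]
      have h3 : 3 ≤ e.card := by have := hB e he; omega
      have := hrec s e.card hs h3
      have h0 := hw0 s e.card
      rw [this]
      nlinarith [mul_nonneg (sub_nonneg.2 hb) h0]
  have h3 : (X.card : ℚ) * ∑ e ∈ H, w s e.card ≤
      ∑ x ∈ X, ∑ e ∈ con H x, w s e.card +
      ∑ e ∈ H.filter (fun e => e.card = 2),
        ((2 + ((bad H X e).card : ℚ)) * w s 2 - 2 * w s 1) := by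
    rw [mul_sum, h1, sum_filter, ← sum_add_distrib]
    exact sum_le_sum h2
  have h4 : 2 * ∑ e ∈ H.filter (fun e => e.card = 2),
        ((2 + ((bad H X e).card : ℚ)) * w s 2 - 2 * w s 1) =
      ∑ x ∈ X, ∑ y ∈ nb H X x,
        ((2 + (((nb H X x ∪ nb H X y) \ {x, y}).card : ℚ)) * (2 / Q s) - 2 * (1 / s)) := by
    rw [← sum_two hX (fun e => ((2 + ((bad H X e).card : ℚ)) * w s 2 - 2 * w s 1))]
    apply sum_congr rfl
    intro x hx
    apply sum_congr rfl
    intro y hy
    rw [bad_two hX hB hC (mem_filter.1 hy).2.2, hw2 s hs, lw_one]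
  have h5 := hGR α X (nb H X) s hs (fun x _ => filter_subset _ _)
    (fun x _ h => (mem_filter.1 h).2.1 rfl) (fun x hx y hy => nb_symm hx hy)
    (fun x _ => nb_card hP x)
    (fun x _ y hy => by
      rw [← bad_two hX hB hC (mem_filter.1 hy).2.2]
      exact bad_card hP _)
  have h6 : ∑ x ∈ X, ∑ y ∈ nb H X x,
      ((s : ℚ) * ((((nb H X x ∪ nb H X y) \ {x, y}).card : ℚ) + 2) - Q s) ≤
      ∑ x ∈ X, ((s : ℚ) * Q s - (nb H X x).card * Q s - s * Q (s - (nb H X x).card)) := by
    exact_mod_cast h5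
  have h7 : ∑ x ∈ X, ∑ y ∈ nb H X x,
        ((2 + (((nb H X x ∪ nb H X y) \ {x, y}).card : ℚ)) * (2 / Q s) - 2 * (1 / s)) =
      (2 / ((s : ℚ) * Q s)) * ∑ x ∈ X, ∑ y ∈ nb H X x,
      ((s : ℚ) * ((((nb H X x ∪ nb H X y) \ {x, y}).card : ℚ) + 2) - Q s) := by
    rw [mul_sum]
    apply sum_congr rfl
    intro x _
    rw [mul_sum]
    apply sum_congr rfl
    intro y _
    field_simp
    ring
  have h8 : ∑ x ∈ X, (1 - ((nb H X x).card : ℚ) / s - (Q (s - (nb H X x).card) : ℚ) / Q s) =
      (1 / ((s : ℚ) * Q s)) *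
      ∑ x ∈ X, ((s : ℚ) * Q s - (nb H X x).card * Q s - s * Q (s - (nb H X x).card)) := by
    rw [mul_sum]
    apply sum_congr rfl
    intro x _
    field_simp
  have h9 : ∑ x ∈ X, (1 - ((nb H X x).card : ℚ) / s - (Q (s - (nb H X x).card) : ℚ) / Q s) =
      X.card - ∑ x ∈ X, (((nb H X x).card : ℚ) / s + (Q (s - (nb H X x).card) : ℚ) / Q s) := by
    rw [card_eq_sum_ones, Nat.cast_sum, ← sum_sub_distrib]
    apply sum_congr rfl
    intro x _
    push_cast
    ring
  have h10 := sum_le_sum IH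
  have hpos : (0 : ℚ) < 1 / ((s : ℚ) * Q s) := by positivity
  have h11 : (1 / ((s : ℚ) * Q s)) * ∑ x ∈ X, ∑ y ∈ nb H X x,
      ((s : ℚ) * ((((nb H X x ∪ nb H X y) \ {x, y}).card : ℚ) + 2) - Q s) ≤
      (1 / ((s : ℚ) * Q s)) *
      ∑ x ∈ X, ((s : ℚ) * Q s - (nb H X x).card * Q s - s * Q (s - (nb H X x).card)) :=
    mul_le_mul_of_nonneg_left h6 hpos.le
  have h12 : (2 / ((s : ℚ) * Q s)) = 2 * (1 / ((s : ℚ) * Q s)) := by ring
  rw [h7, h12] at h4
  have h13 : (X.card : ℚ) * ∑ e ∈ H, w s e.card ≤ X.card := by linarith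
  have hc : (0 : ℚ) < X.card := by exact_mod_cast hN.card_pos
  by_contra hcon
  push Not at hcon
  nlinarith

theorem strong_of_core (hWM : WMON) {X : Finset α}
    (hcore : ∀ (s : ℕ) (H : Finset (Finset α)), 1 ≤ s → (∀ e ∈ H, e ⊆ X) → Clutter H → Big H →
      Phi H s → ∑ e ∈ H, w s e.card ≤ 1)
    (s : ℕ) (H : Finset (Finset α)) (hs : 1 ≤ s) (hX : ∀ e ∈ H, e ⊆ X) (hC : Clutter H)
    (hE : ∅ ∉ H) (hP : Phi H s) :
    ∑ e ∈ H, w s e.card ≤ ((H.filter (fun e => e.card = 1)).card : ℚ) / s +
      (Q (s - (H.filter (fun e => e.card = 1)).card) : ℚ) / Q s := by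
  classical
  set D1 := H.filter (fun e => e.card = 1) with hD1
  set K := H.filter (fun e => ¬ e.card = 1) with hK
  set D := X.filter (fun y => ({y} : Finset α) ∈ H) with hD
  have hQ : (0 : ℚ) < Q s := by exact_mod_cast lQ_pos hs
  have hDD : D1 = D.image (fun y => ({y} : Finset α)) := by
    ext e
    simp only [hD1, hD, mem_filter, mem_image]
    constructor
    · rintro ⟨he, h1⟩
      obtain ⟨y, rfl⟩ := card_eq_one.1 h1
      exact ⟨y, ⟨hX _ he (mem_singleton_self y), he⟩, rfl⟩
    · rintro ⟨y, ⟨_, hy⟩, rfl⟩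
      exact ⟨hy, card_singleton y⟩
  have hcard : D1.card = D.card := by
    rw [hDD, card_image_of_injective _ (fun a b h => singleton_injective h)]
  have hsum : ∑ e ∈ H, w s e.card = (D1.card : ℚ) / s + ∑ e ∈ K, w s e.card := by
    rw [← sum_filter_add_sum_filter_not H (fun e => e.card = 1)]
    congr 1
    rw [sum_congr rfl (g := fun _ => 1 / (s : ℚ)) (fun e he => by
      rw [(mem_filter.1 he).2, lw_one])]
    rw [sum_const, nsmul_eq_mul]
    ring
  have hDe : ∀ e ∈ K, ∀ y ∈ D, y ∉ e := by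
    intro e he y hy hye
    have he' := mem_filter.1 he
    have hy' := (mem_filter.1 hy).2
    have := hC _ hy' _ he'.1 (singleton_subset_iff.2 hye)
    apply he'.2
    rw [← this]; exact card_singleton y
  have hdom : ∀ S, Dom K S → S.card + D.card ≤ s := by
    intro S hS
    have hdis : Disjoint S D := by
      rw [disjoint_left]
      intro v hv hvD
      obtain ⟨e, he, hes⟩ := hS v hv
      have : v ∈ e ∩ S := by rw [hes]; exact mem_singleton_self v
      exact hDe e he v hvD (mem_inter.1 this).1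
    rw [← card_union_of_disjoint hdis]
    apply hP
    intro v hv
    rcases mem_union.1 hv with hv | hv
    · obtain ⟨e, he, hes⟩ := hS v hv
      refine ⟨e, (mem_filter.1 he).1, ?_⟩
      rw [inter_union_distrib_left, hes]
      have : e ∩ D = ∅ := by
        rw [← disjoint_iff_inter_eq_empty, disjoint_left]
        intro u hu huD
        exact hDe e he u huD hu
      rw [this, union_empty]
    · refine ⟨{v}, (mem_filter.1 hv).2, ?_⟩
      rw [singleton_inter_of_mem (mem_union_right _ hv)]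
  have hds : D.card ≤ s := by
    have := hdom ∅ (by intro v hv; simp at hv)
    simpa using this
  have hKP : Phi K (s - D.card) := by
    intro S hS
    have := hdom S hS
    omega
  have hKB : Big K := by
    intro e he
    have he' := mem_filter.1 he
    have h0 : e.card ≠ 0 := by
      intro h
      rw [card_eq_zero] at h
      exact hE (h ▸ he'.1)
    have := he'.2
    omega
  rw [hsum, hcard]
  have hgoal : ∑ e ∈ K, w s e.card ≤ (Q (s - D.card) : ℚ) / Q s := by
    by_cases ht : s - D.card = 0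
    · have hKe : K = ∅ := by
        rw [eq_empty_iff_forall_notMem]
        intro e he
        have h2 := hKB e he
        obtain ⟨v, hv⟩ : e.Nonempty := card_pos.1 (by omega)
        have := hKP {v} (by
          intro u hu
          rw [mem_singleton] at hu
          subst hu
          exact ⟨e, he, by rw [inter_singleton_of_mem hv]⟩)
        rw [ht, card_singleton] at this
        omega
      rw [hKe, ht, lQ_zero]
      simp
    · have ht1 : 1 ≤ s - D.card := by omega
      have hQt : (0 : ℚ) < Q (s - D.card) := by exact_mod_cast lQ_pos ht1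
      have h1 : ∑ e ∈ K, w s e.card ≤
          ∑ e ∈ K, ((Q (s - D.card) : ℚ) / Q s) * w (s - D.card) e.card :=
        sum_le_sum (fun e he => hWM s (s - D.card) e.card ht1 (by omega) (hKB e he))
      rw [← mul_sum] at h1
      have h2 := hcore (s - D.card) K ht1 (fun e he => hX e (mem_filter.1 he).1)
        (fun e he e' he' => hC e (mem_filter.1 he).1 e' (mem_filter.1 he').1) hKB hKP
      have hr : (0 : ℚ) ≤ (Q (s - D.card) : ℚ) / Q s := by positivity
      calc _ ≤ _ := h1
        _ ≤ ((Q (s - D.card) : ℚ) / Q s) * 1 := mul_le_mul_of_nonneg_left h2 hr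
        _ = _ := mul_one _
  linarith

theorem core (hREC : WREC) (hWM : WMON) (hGR : GR) : ∀ (N : ℕ) (X : Finset α), X.card = N →
    ∀ (s : ℕ) (H : Finset (Finset α)), 1 ≤ s → (∀ e ∈ H, e ⊆ X) → Clutter H → Big H →
      Phi H s → ∑ e ∈ H, w s e.card ≤ 1 := by
  intro N
  induction N with
  | zero =>
    intro X hN s H hs hX hC hB hP
    have hXe : X = ∅ := card_eq_zero.1 hN
    have hHe : H = ∅ := by
      rw [eq_empty_iff_forall_notMem]
      intro e he
      have h1 := hB e he
      have h2 := card_le_card (hX e he)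
      omega
    rw [hHe, sum_empty]
    norm_num
  | succ N ih =>
    intro X hN s H hs hX hC hB hP
    have hne : X.Nonempty := card_pos.1 (by omega)
    apply core_step hREC hGR hs hX hC hB hP hne
    intro x hx
    have := strong_of_core hWM (X := X.erase x)
      (ih (X.erase x) (by rw [card_erase_of_mem hx]; omega)) s (con H x) hs
      (con_ground hX x) (con_clutter hC x) (con_ne hB x) (con_phi hP x)
    rw [con_sing hX hB x] at this
    exact this

theorem lym (hREC : WREC) (hWM : WMON) (hGR : GR) (X : Finset α)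
    (s : ℕ) (H : Finset (Finset α)) (hs : 1 ≤ s) (hX : ∀ e ∈ H, e ⊆ X) (hC : Clutter H)
    (hE : ∅ ∉ H) (hP : Phi H s) :
    ∑ e ∈ H, w s e.card ≤ ((H.filter (fun e => e.card = 1)).card : ℚ) / s +
      (Q (s - (H.filter (fun e => e.card = 1)).card) : ℚ) / Q s :=
  strong_of_core hWM (core hREC hWM hGR X.card X rfl) s H hs hX hC hE hP

theorem uniform_bound (hREC : WREC) (hWM : WMON) (hGR : GR) {n r s : ℕ} (hr : 2 ≤ r)
    (hs : 1 ≤ s) (H : Finset (Finset (Fin n))) (hU : DOMP.Uniform r H) (hP : DOMP.PhiLe H s) :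
    (s + 1) * (s + 2) * H.card ≤ 2 * (s * (s + 2) / 2) * (s + r).choose r := by
  have hC : Clutter H := by
    intro e he e' he' hsub
    exact eq_of_subset_of_card_le hsub (by rw [hU e he, hU e' he'])
  have hB : Big H := by
    intro e he
    rw [hU e he]; exact hr
  have hPhi : Phi H s := by
    intro S hS
    apply hP
    intro v hv
    have hv' : v ∈ S := by
      by_contra h
      exact hv h
    obtain ⟨e, he, hes⟩ := hS v hv'
    have hve : v ∈ e ∩ S := by rw [hes]; exact mem_singleton_self v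
    refine ⟨e, he, (mem_inter.1 hve).1, ?_⟩
    intro u hu huv huS
    have : u ∈ e ∩ S := mem_inter.2 ⟨hu, huS⟩
    rw [hes, mem_singleton] at this
    exact huv this
  have h1 := core hREC hWM hGR (univ : Finset (Fin n)).card univ rfl s H hs
    (fun e _ => subset_univ e) hC hB hPhi
  rw [sum_congr rfl (g := fun _ => w s r) (fun e he => by rw [hU e he]), sum_const,
    nsmul_eq_mul] at h1
  have hQ : (0 : ℚ) < Q s := by exact_mod_cast lQ_pos hs
  have hch : (0 : ℚ) < ((s + r).choose r : ℚ) := by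
    exact_mod_cast Nat.choose_pos (by omega)
  have hw : w s r = ((s + 1 : ℕ) * (s + 2 : ℕ) : ℚ) / ((Q s : ℚ) * ((s + r).choose r : ℚ)) := by
    unfold w
    rw [if_neg (by omega), if_neg (by omega)]
  rw [hw, mul_div_assoc', div_le_one (by positivity)] at h1
  have h2 : H.card * ((s + 1) * (s + 2)) ≤ Q s * (s + r).choose r := by
    exact_mod_cast h1
  calc (s + 1) * (s + 2) * H.card = H.card * ((s + 1) * (s + 2)) := by ring
    _ ≤ _ := h2

end R922.DOM
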